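import Mathlib

set_option autoImplicit false

namespace Pool.Agent.MPba3ff3

open scoped ENNReal Topology
open Filter

/-- success probability with `w` packets and attempt probability `p` -/
noncomputable def qf (w : ℕ) (p : ℝ) : ℝ := (w : ℝ) * p * (1 - p) ^ (w - 1)

theorem qf_zero (p : ℝ) : qf 0 p = 0 := by simp [qf]

theorem qf_nonneg (w : ℕ) (p : ℝ) (h0 : 0 ≤ p) (h1 : p ≤ 1) : 0 ≤ qf w p := by
  unfold qf
  have : 0 ≤ 1 - p := by linarith
  positivity

theorem qf_le_one (w : ℕ) (p : ℝ) (h0 : 0 ≤ p) (h1 : p ≤ 1) : qf w p ≤ 1 := by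
  rcases Nat.eq_zero_or_pos w with rfl | hw
  · simp [qf]
  unfold qf
  have hp : 0 ≤ 1 - p := by linarith
  have h := add_pow p (1 - p) w
  have e : p + (1 - p) = 1 := by ring
  rw [e, one_pow] at h
  have h2 := Finset.single_le_sum (f := fun m => p ^ m * (1 - p) ^ (w - m) * (w.choose m : ℝ))
    (s := Finset.range (w + 1)) (fun m _ => by positivity) (Finset.mem_range.mpr (by omega : 1 < w + 1))
  simp only [pow_one, Nat.choose_one_right] at h2
  rw [← h] at h2
  linarith [h2]

theorem qf_ge (w : ℕ) (p : ℝ) (h0 : 0 ≤ p) (h1 : p ≤ 1) (hw : 1 ≤ w) :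
    (w : ℝ) * p * (1 - w * p) ≤ qf w p := by
  unfold qf
  have hb : 1 + ((w - 1 : ℕ) : ℝ) * (-p) ≤ (1 + (-p)) ^ (w - 1) :=
    one_add_mul_le_pow (by linarith) _
  have hc : ((w - 1 : ℕ) : ℝ) = (w : ℝ) - 1 := by
    rw [Nat.cast_sub hw]; simp
  have : 1 - (w : ℝ) * p ≤ (1 - p) ^ (w - 1) := by
    rw [hc] at hb
    have e : (1 + (-p)) = 1 - p := by ring
    rw [e] at hb
    nlinarith
  exact mul_le_mul_of_nonneg_left this (by positivity)

theorem qf_ge_p (w : ℕ) (p : ℝ) (h0 : 0 ≤ p) (h1 : p ≤ 1) (hw : 1 ≤ w) (hwp : (w : ℝ) * p ≤ 1 / 2) :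
    p ≤ qf w p := by
  rcases Nat.lt_or_ge w 2 with h | h
  · have : w = 1 := by omega
    subst this
    simp [qf]
  · have hw2 : (2 : ℝ) ≤ w := by exact_mod_cast h
    have := qf_ge w p h0 h1 hw
    nlinarith [mul_nonneg h0 (by linarith : (0:ℝ) ≤ w - 2)]

noncomputable def xi : ℝ := 26 / 25
noncomputable def zz : ℝ := xi ^ 16
noncomputable def lam : ℝ := 1 / 1000
noncomputable def kap : ℝ := 99951 / 100000

theorem zz_bounds : 187 / 100 ≤ zz ∧ zz ≤ 188 / 100 := by
  unfold zz xi; constructor <;> norm_num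

theorem exp_lam_z : Real.exp (lam * (zz - 1)) ≤ 10011 / 10000 := by
  have hz := zz_bounds
  have h1 : lam * (zz - 1) ≤ 1 / 1000 := by
    unfold lam; linarith
  have h2 : Real.exp (lam * (zz - 1)) ≤ Real.exp (1 / 1000) := Real.exp_le_exp.mpr h1
  have h3 : 1 - (1 / 1000 : ℝ) ≤ Real.exp (-(1 / 1000)) := by
    have := Real.add_one_le_exp (-(1 / 1000 : ℝ)); linarith
  have h4 : Real.exp (1 / 1000) * Real.exp (-(1 / 1000)) = 1 := by
    rw [← Real.exp_add]; simp
  have h5 := Real.exp_pos (1 / 1000 : ℝ)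
  have h6 : Real.exp (1 / 1000 : ℝ) ≤ 10011 / 10000 := by nlinarith
  linarith

theorem exp_neg_lam : 1 + Real.exp (-lam) ≤ 2 * kap := by
  have h3 : 1 + lam ≤ Real.exp lam := by
    have := Real.add_one_le_exp lam; linarith
  have h4 : Real.exp lam * Real.exp (-lam) = 1 := by
    rw [← Real.exp_add]; simp
  have h5 := Real.exp_pos (-lam)
  unfold lam kap at *
  nlinarith

theorem kap_pow : kap ^ 7000 ≤ 1 / 19 := by
  have h1 : kap ≤ Real.exp (-(49 / 100000)) := by
    have := Real.add_one_le_exp (-(49 / 100000) : ℝ)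
    unfold kap; linarith
  have h2 : kap ^ 7000 ≤ (Real.exp (-(49 / 100000))) ^ 7000 := by
    apply pow_le_pow_left₀ _ h1
    unfold kap; norm_num
  rw [← Real.exp_nat_mul] at h2
  have h3 : Real.exp ((7000 : ℕ) * (-(49 / 100000))) ≤ Real.exp (-3) := by
    apply Real.exp_le_exp.mpr; norm_num
  have h4 : Real.exp 3 * Real.exp (-3) = 1 := by
    rw [← Real.exp_add]; simp
  have h5 : (27 / 10 : ℝ) ≤ Real.exp 1 := by
    have := Real.exp_one_gt_d9; linarith
  have h6 : Real.exp 3 = Real.exp 1 ^ 3 := by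
    rw [← Real.exp_nat_mul]; norm_num
  have h7 : (19 : ℝ) ≤ Real.exp 3 := by
    rw [h6]
    calc (19 : ℝ) ≤ (27 / 10) ^ 3 := by norm_num
      _ ≤ _ := pow_le_pow_left₀ (by norm_num) h5 3
  have h8 := Real.exp_pos (-3 : ℝ)
  have h9 : Real.exp (-3) ≤ 1 / 19 := by
    rw [le_div_iff₀ (by norm_num)]
    nlinarith
  linarith

/-- exponential term -/
noncomputable def EE (n w : ℕ) : ℝ := xi ^ (16 * w) / xi ^ (2 * (200 + n))
/-- accumulated error -/
noncomputable def bb (n : ℕ) : ℝ := ∑ k ∈ Finset.range n, (11 / 10) / xi ^ (201 + k)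
/-- term for the test phase -/
noncomputable def kk (n w : ℕ) : ℝ := if n ≤ 7000 then kap ^ n * (if w = 0 then 2 else 1) else 2 * kap ^ 7000

theorem xi_pos : 0 < xi := by unfold xi; norm_num
theorem one_lt_xi : 1 < xi := by unfold xi; norm_num

theorem EE_pos (n w : ℕ) : 0 < EE n w := by
  unfold EE; have := xi_pos; positivity

theorem bb_nonneg (n : ℕ) : 0 ≤ bb n := by
  unfold bb
  have := xi_pos
  exact Finset.sum_nonneg (fun k _ => by positivity)

theorem bb_succ (n : ℕ) : bb (n + 1) = bb n + (11 / 10) / xi ^ (201 + n) := by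
  unfold bb; rw [Finset.sum_range_succ]

theorem bb_le (n : ℕ) : bb n ≤ 1 / 50 := by
  have hx := xi_pos
  have h : ∀ n, bb n ≤ (11 / 10) * 25 / xi ^ 200 - (11 / 10) * 25 / xi ^ (200 + n) := by
    intro n
    induction n with
    | zero => simp [bb]
    | succ n ih =>
      rw [bb_succ]
      have e1 : xi ^ (201 + n) = xi ^ (200 + n) * xi := by ring
      have e2 : xi ^ (200 + (n + 1)) = xi ^ (200 + n) * xi := by ring
      rw [e1, e2]
      have hp : 0 < xi ^ (200 + n) := by positivity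
      have : (11 / 10) / (xi ^ (200 + n) * xi) = (11 / 10) * 25 / xi ^ (200 + n) - (11 / 10) * 25 / (xi ^ (200 + n) * xi) := by
        field_simp
        unfold xi
        norm_num
      linarith
  have h1 := h n
  have h2 : 0 < (11 / 10) * 25 / xi ^ (200 + n) := by positivity
  have h3 : (11 / 10) * 25 / xi ^ 200 ≤ 1 / 50 := by
    rw [div_le_div_iff₀ (by positivity) (by norm_num)]
    unfold xi
    norm_num
  linarith

theorem kap_pos : 0 < kap := by unfold kap; norm_num
theorem kap_le : kap ≤ 1 := by unfold kap; norm_num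

theorem kk_nonneg (n w : ℕ) : 0 ≤ kk n w := by
  have := kap_pos
  unfold kk; split_ifs <;> positivity

theorem kk_le (n w : ℕ) : kk n w ≤ 2 := by
  have h0 := kap_pos
  unfold kk
  split_ifs
  · have : kap ^ n ≤ 1 := pow_le_one₀ h0.le kap_le
    linarith
  · have : kap ^ n ≤ 1 := pow_le_one₀ h0.le kap_le
    linarith
  · have : kap ^ 7000 ≤ 1 := pow_le_one₀ h0.le kap_le
    linarith

/-- The key one-step estimate for the exponential term. -/
theorem EE_step (n w : ℕ) (p : ℝ) (hp1 : 4 / ((200 + (n + 1 : ℕ) : ℝ) + 1 / 2) ≤ p)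
    (hp2 : p ≤ 4 / (200 + (n + 1 : ℕ) : ℝ)) (hw : 8 * w ≤ 200 + (n + 1)) :
    EE n w * (1 - qf w p * (1 - 1 / zz)) * Real.exp (lam * (zz - 1)) ≤ EE (n + 1) w + (bb (n + 1) - bb n) := by
  have hx := xi_pos
  have hx1 := one_lt_xi
  obtain ⟨hz1, hz2⟩ := zz_bounds
  have hexp := exp_lam_z
  have hexp0 := Real.exp_pos (lam * (zz - 1))
  set S : ℝ := 200 + (n + 1 : ℕ) with hS
  have hS201 : (201 : ℝ) ≤ S := by
    rw [hS]; push_cast
    have : (0 : ℝ) ≤ n := Nat.cast_nonneg n
    linarith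
  have hp0 : 0 ≤ p := le_trans (by positivity) hp1
  have hple : p ≤ 1 := by
    refine hp2.trans ?_
    rw [div_le_one (by linarith)]; linarith
  have hEE : EE n w = xi ^ 2 * EE (n + 1) w := by
    unfold EE
    have : xi ^ (2 * (200 + (n + 1))) = xi ^ (2 * (200 + n)) * xi ^ 2 := by ring
    rw [this]
    field_simp
  have hE1 := EE_pos (n + 1) w
  have hq0 := qf_nonneg w p hp0 hple
  have hq1 := qf_le_one w p hp0 hple
  have hzinv : 1 / zz ≤ 100 / 187 := by
    rw [div_le_div_iff₀ (by linarith) (by norm_num)]; linarith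
  have hzinv0 : 0 < 1 / zz := by apply div_pos one_pos; linarith
  have hx2 : xi ^ 2 = 676 / 625 := by unfold xi; norm_num
  rw [hEE, hx2, bb_succ]
  rcases Nat.lt_or_ge (16 * w) (200 + (n + 1)) with hcase | hcase
  · -- small w
    have hEs : EE (n + 1) w ≤ 1 / xi ^ (201 + n) := by
      unfold EE
      rw [div_le_div_iff₀ (by positivity) (by positivity)]
      have : xi ^ (2 * (200 + (n + 1))) = xi ^ (201 + n) * xi ^ (201 + n) := by ring
      rw [this, one_mul]
      apply mul_le_mul_of_nonneg_right _ (by positivity)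
      exact pow_le_pow_right₀ hx1.le (by omega)
    have h1 : 1 - qf w p * (1 - 1 / zz) ≤ 1 := by
      have : 0 ≤ qf w p * (1 - 1 / zz) := mul_nonneg hq0 (by linarith)
      linarith
    have h0 : 0 ≤ 1 - qf w p * (1 - 1 / zz) := by
      have : qf w p * (1 - 1 / zz) ≤ 1 * 1 := mul_le_mul hq1 (by linarith) (by linarith) (by norm_num)
      linarith
    have h2 : 676 / 625 * EE (n + 1) w * (1 - qf w p * (1 - 1 / zz)) * Real.exp (lam * (zz - 1))
        ≤ 676 / 625 * EE (n + 1) w * 1 * (10011 / 10000) := by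
      gcongr
    have h3 : (11 / 10 : ℝ) / xi ^ (201 + n) = 11 / 10 * (1 / xi ^ (201 + n)) := by ring
    rw [h3]
    nlinarith
  · -- large w
    have hwS : (w : ℝ) ≤ S / 8 := by
      have : (8 * w : ℝ) ≤ 200 + (n + 1) := by exact_mod_cast hw
      rw [hS]; push_cast; linarith
    have hwS2 : S / 16 ≤ (w : ℝ) := by
      have : (200 + (n + 1) : ℝ) ≤ 16 * w := by exact_mod_cast hcase
      rw [hS]; push_cast; linarith
    have hw1 : 1 ≤ w := by omega
    have hwp1 : (w : ℝ) * p ≤ 1 / 2 := by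
      calc (w : ℝ) * p ≤ (S / 8) * (4 / S) := by
            apply mul_le_mul hwS hp2 hp0 (by linarith)
        _ = 1 / 2 := by field_simp; norm_num
    have hwp2 : 2493 / 10000 ≤ (w : ℝ) * p := by
      calc (2493 / 10000 : ℝ) ≤ (S / 16) * (4 / (S + 1 / 2)) := by
            rw [div_mul_div_comm, div_le_div_iff₀ (by norm_num) (by linarith)]
            nlinarith
        _ ≤ _ := mul_le_mul hwS2 hp1 (by positivity) (by positivity)
    have hq := qf_ge w p hp0 hple hw1
    have hq' : 187 / 1000 ≤ qf w p := by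
      nlinarith [mul_nonneg (by linarith : (0:ℝ) ≤ (w : ℝ) * p - 2493 / 10000) (by linarith : (0:ℝ) ≤ 7507 / 10000 - (w : ℝ) * p)]
    have hfac : 1 - qf w p * (1 - 1 / zz) ≤ 914 / 1000 := by
      have : (187 / 1000 : ℝ) * (87 / 187) ≤ qf w p * (1 - 1 / zz) :=
        mul_le_mul hq' (by linarith) (by norm_num) hq0
      linarith
    have h0 : 0 ≤ 1 - qf w p * (1 - 1 / zz) := by
      have : qf w p * (1 - 1 / zz) ≤ 1 * 1 := mul_le_mul hq1 (by linarith) (by linarith) (by norm_num)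
      linarith
    have h2 : 676 / 625 * EE (n + 1) w * (1 - qf w p * (1 - 1 / zz)) * Real.exp (lam * (zz - 1))
        ≤ 676 / 625 * EE (n + 1) w * (914 / 1000) * (10011 / 10000) := by
      gcongr
    have h3 : 0 ≤ (11 / 10) / xi ^ (201 + n) := by positivity
    nlinarith

end Pool.Agent.MPba3ff3
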