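import Mathlib
import Pool.Agent.MPba3ff3.Lyap

set_option autoImplicit false

namespace Pool.Agent.MPba3ff3

open scoped ENNReal Topology
open Filter

/-- Poisson weight -/
noncomputable def poi (a : ℕ) : ℝ := Real.exp (-lam) * lam ^ a / (a.factorial : ℝ)

theorem lam_pos : 0 < lam := by unfold lam; norm_num

theorem poi_nonneg (a : ℕ) : 0 ≤ poi a := by
  unfold poi; have := lam_pos; positivity

theorem poi_hasSum_pow (t : ℝ) : HasSum (fun a => poi a * t ^ a) (Real.exp (lam * (t - 1))) := by
  have h := (NormedSpace.expSeries_div_hasSum_exp (lam * t : ℝ)).mul_left (Real.exp (-lam))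
  rw [← Real.exp_eq_exp_ℝ, ← Real.exp_add] at h
  have e : -lam + lam * t = lam * (t - 1) := by ring
  rw [e] at h
  refine HasSum.congr_fun h fun a => ?_
  unfold poi
  rw [mul_pow]
  ring

theorem poi_hasSum_one : HasSum poi 1 := by
  have := poi_hasSum_pow 1
  simpa using this

theorem poi_hasSum_id : HasSum (fun a : ℕ => poi a * a) lam := by
  rw [← hasSum_nat_add_iff' 1]
  simp only [Finset.range_one, Finset.sum_singleton, Nat.cast_zero, mul_zero, sub_zero]
  have h := poi_hasSum_one.mul_left lam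
  rw [mul_one] at h
  refine HasSum.congr_fun h fun a => ?_
  unfold poi
  rw [Nat.factorial_succ, pow_succ]
  push_cast
  field_simp

theorem poi_hasSum_ind : HasSum (fun a : ℕ => poi a * (if a = 0 then 1 else 0)) (Real.exp (-lam)) := by
  have h : HasSum (fun a : ℕ => poi a * (if a = 0 then 1 else 0)) (poi 0 * (if 0 = 0 then 1 else 0)) := by
    apply hasSum_single
    intro b hb
    simp [hb]
  simpa [poi] using h

theorem poi_bound (h : ℕ → ℝ) (A0 A1 A2 A3 : ℝ) (h0 : ∀ a, 0 ≤ h a)
    (hh : ∀ a, h a ≤ A0 + A1 * a + A2 * zz ^ a + A3 * (if a = 0 then 1 else 0)) :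
    ∑' a, ENNReal.ofReal (poi a) * ENNReal.ofReal (h a)
      ≤ ENNReal.ofReal (A0 + A1 * lam + A2 * Real.exp (lam * (zz - 1)) + A3 * Real.exp (-lam)) := by
  have hs : HasSum (fun a : ℕ => poi a * (A0 + A1 * a + A2 * zz ^ a + A3 * (if a = 0 then 1 else 0)))
      (A0 + A1 * lam + A2 * Real.exp (lam * (zz - 1)) + A3 * Real.exp (-lam)) := by
    have := (((poi_hasSum_one.mul_left A0).add (poi_hasSum_id.mul_left A1)).add
      ((poi_hasSum_pow zz).mul_left A2)).add (poi_hasSum_ind.mul_left A3)
    rw [mul_one] at this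
    refine HasSum.congr_fun this fun a => ?_
    ring
  have hnn : ∀ a, 0 ≤ poi a * (A0 + A1 * a + A2 * zz ^ a + A3 * (if a = 0 then 1 else 0)) :=
    fun a => mul_nonneg (poi_nonneg a) ((h0 a).trans (hh a))
  rw [← hs.tsum_eq, ENNReal.ofReal_tsum_of_nonneg hnn hs.summable]
  apply ENNReal.tsum_le_tsum
  intro a
  rw [← ENNReal.ofReal_mul (poi_nonneg a)]
  exact ENNReal.ofReal_le_ofReal (mul_le_mul_of_nonneg_left (hh a) (poi_nonneg a))

/-- length of round `K` -/
noncomputable def RR (K : ℕ) : ℝ := 7000 * 2 ^ K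
noncomputable def Phi (n w : ℕ) : ℝ := EE n w + bb n + kk n w
noncomputable def HH (n w : ℕ) : ℝ := min 1 (Phi n w)

theorem Phi_nonneg (n w : ℕ) : 0 ≤ Phi n w := by
  unfold Phi
  have := EE_pos n w
  have := bb_nonneg n
  have := kk_nonneg n w
  linarith

theorem HH_nonneg (n w : ℕ) : 0 ≤ HH n w := le_min zero_le_one (Phi_nonneg n w)
theorem HH_le_one (n w : ℕ) : HH n w ≤ 1 := min_le_left _ _
theorem HH_le_Phi (n w : ℕ) : HH n w ≤ Phi n w := min_le_right _ _

theorem zz_pos : 0 < zz := by have := zz_bounds; linarith [this.1]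

theorem EE_add (n w a : ℕ) : EE n (w + a) = EE n w * zz ^ a := by
  unfold EE zz
  have hx := xi_pos
  rw [mul_add, pow_add, pow_mul xi 16 a]
  ring

theorem EE_sub (n w a : ℕ) (hw : 1 ≤ w) : EE n (w - 1 + a) = EE n w * zz ^ a / zz := by
  have hz := zz_pos
  obtain ⟨v, rfl⟩ : ∃ v, w = v + 1 := ⟨w - 1, by omega⟩
  rw [Nat.add_sub_cancel, EE_add, EE_add n v 1, pow_one]
  field_simp

theorem RR_ge (K : ℕ) : 7000 ≤ RR K := by
  unfold RR
  have : (1 : ℝ) ≤ 2 ^ K := one_le_pow₀ (by norm_num)
  linarith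

/-- if `Phi < 1` then `w` is in the good range -/
theorem good_of_Phi_lt (n w : ℕ) (h : Phi n w < 1) : 8 * w ≤ 200 + n := by
  by_contra hc
  push Not at hc
  have h1 : 1 ≤ EE n w := by
    unfold EE
    rw [le_div_iff₀ (by have := xi_pos; positivity), one_mul]
    exact pow_le_pow_right₀ one_lt_xi.le (by omega)
  have := bb_nonneg n
  have := kk_nonneg n w
  unfold Phi at h
  linarith

/-- combined expectation factor -/
theorem EE_mix (n w a : ℕ) (p : ℝ) :
    qf w p * EE n (w - 1 + a) + (1 - qf w p) * EE n (w + a)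
      = EE n w * (1 - qf w p * (1 - 1 / zz)) * zz ^ a := by
  rcases Nat.eq_zero_or_pos w with rfl | hw
  · rw [qf_zero, EE_add]; ring
  · rw [EE_sub n w a hw, EE_add]
    have := zz_pos
    field_simp
    ring

theorem H_ramp (n w : ℕ) (hn : 7000 ≤ n) (p : ℝ) (hp1 : 4 / ((200 + (n + 1 : ℕ) : ℝ) + 1 / 2) ≤ p)
    (hp2 : p ≤ 4 / (200 + (n + 1 : ℕ) : ℝ)) :
    ∃ A0 A2 : ℝ,
      (∀ a, qf w p * HH n (w - 1 + a) + (1 - qf w p) * HH n (w + a) ≤ A0 + A2 * zz ^ a) ∧
      A0 + A2 * Real.exp (lam * (zz - 1)) ≤ HH (n + 1) w := by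
  have hp0 : 0 ≤ p := le_trans (by positivity) hp1
  have hple : p ≤ 1 := by
    refine hp2.trans ?_
    rw [div_le_one (by positivity)]; push_cast
    have : (0 : ℝ) ≤ n := Nat.cast_nonneg n
    linarith
  have hq0 := qf_nonneg w p hp0 hple
  have hq1 := qf_le_one w p hp0 hple
  rcases le_or_gt 1 (Phi (n + 1) w) with hPhi | hPhi
  · refine ⟨1, 0, ?_, ?_⟩
    · intro a
      have h1 := HH_le_one n (w - 1 + a)
      have h2 := HH_le_one n (w + a)
      nlinarith
    · unfold HH; simp [hPhi]
  · have hgood := good_of_Phi_lt (n + 1) w hPhi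
    have hstep := EE_step n w p hp1 hp2 hgood
    refine ⟨bb n + 2 * kap ^ 7000, EE n w * (1 - qf w p * (1 - 1 / zz)), ?_, ?_⟩
    · intro a
      have hk : ∀ v, kk n v ≤ 2 * kap ^ 7000 := by
        intro v
        unfold kk
        have hkp : 0 < kap := kap_pos
        split_ifs with h1 h2
        · have : n = 7000 := by omega
          subst this
          linarith
        · have : n = 7000 := by omega
          subst this
          have : 0 < kap ^ 7000 := by positivity
          linarith
        · exact le_refl _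
      have h1 := (HH_le_Phi n (w - 1 + a))
      have h2 := (HH_le_Phi n (w + a))
      have hm := EE_mix n w a p
      unfold Phi at h1 h2
      have h3 := hk (w - 1 + a)
      have h4 := hk (w + a)
      nlinarith
    · have : HH (n + 1) w = Phi (n + 1) w := by unfold HH; exact min_eq_right hPhi.le
      rw [this]
      have hk : kk (n + 1) w = 2 * kap ^ 7000 := by
        unfold kk; rw [if_neg (by omega)]
      unfold Phi
      rw [hk]
      linarith

theorem H_test (n w : ℕ) (hn : n + 1 ≤ 7000) (p : ℝ)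
    (hp1 : 4 / ((200 + (n + 1 : ℕ) : ℝ) + 1 / 2) ≤ p)
    (hp2 : p ≤ 4 / (200 + (n + 1 : ℕ) : ℝ)) :
    ∃ A0 A2 A3 : ℝ,
      (∀ a, (1 - qf w p) * HH n (w + a) ≤ A0 + A2 * zz ^ a + A3 * (if a = 0 then 1 else 0)) ∧
      A0 + A2 * Real.exp (lam * (zz - 1)) + A3 * Real.exp (-lam) ≤ HH (n + 1) w := by
  have hp0 : 0 ≤ p := le_trans (by positivity) hp1
  have hple : p ≤ 1 := by
    refine hp2.trans ?_
    rw [div_le_one (by positivity)]; push_cast
    have : (0 : ℝ) ≤ n := Nat.cast_nonneg n
    linarith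
  have hq0 := qf_nonneg w p hp0 hple
  have hq1 := qf_le_one w p hp0 hple
  have hkp := kap_pos
  rcases le_or_gt 1 (Phi (n + 1) w) with hPhi | hPhi
  · refine ⟨1, 0, 0, ?_, ?_⟩
    · intro a
      have h2 := HH_le_one n (w + a)
      have h3 := HH_nonneg n (w + a)
      have : (1 - qf w p) * HH n (w + a) ≤ 1 * 1 := mul_le_mul (by linarith) h2 h3 (by norm_num)
      linarith
    · unfold HH; simp [hPhi]
  · have hgood := good_of_Phi_lt (n + 1) w hPhi
    have hstep := EE_step n w p hp1 hp2 hgood
    have hHH : HH (n + 1) w = Phi (n + 1) w := by unfold HH; exact min_eq_right hPhi.le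
    have hEn := EE_pos n w
    have hbn := bb_nonneg n
    rcases Nat.eq_zero_or_pos w with rfl | hw
    · refine ⟨bb n + kap ^ n, EE n 0, kap ^ n, ?_, ?_⟩
      · intro a
        rw [qf_zero, sub_zero, one_mul, zero_add]
        have h2 := (HH_le_Phi n a)
        have e := EE_add n 0 a
        rw [zero_add] at e
        unfold Phi at h2
        rw [e] at h2
        refine h2.trans ?_
        unfold kk
        rw [if_pos (by omega)]
        split_ifs <;> linarith
      · rw [hHH]
        unfold Phi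
        rw [qf_zero] at hstep
        have hk : kk (n + 1) 0 = kap ^ n * (2 * kap) := by
          unfold kk; rw [if_pos (by omega), if_pos rfl]; ring
        rw [hk]
        have h3 : kap ^ n * (1 + Real.exp (-lam)) ≤ kap ^ n * (2 * kap) :=
          mul_le_mul_of_nonneg_left exp_neg_lam (by positivity)
        have h4 : EE n 0 * (1 - 0 * (1 - 1 / zz)) * Real.exp (lam * (zz - 1)) = EE n 0 * Real.exp (lam * (zz - 1)) := by ring
        rw [h4] at hstep
        nlinarith
    · have hwp : (w : ℝ) * p ≤ 1 / 2 := by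
        have hwS : (8 * w : ℝ) ≤ 200 + (n + 1) := by exact_mod_cast hgood
        have : 0 < (200 + (n + 1 : ℕ) : ℝ) := by positivity
        calc (w : ℝ) * p ≤ ((200 + (n + 1 : ℕ) : ℝ) / 8) * (4 / (200 + (n + 1 : ℕ) : ℝ)) := by
              apply mul_le_mul _ hp2 hp0 (by positivity)
              push_cast; linarith
          _ = 1 / 2 := by field_simp; norm_num
      have hqp := qf_ge_p w p hp0 hple hw hwp
      have hpk : 1 - kap ≤ p := by
        refine le_trans ?_ hp1
        unfold kap
        rw [le_div_iff₀ (by positivity)]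
        have : ((n + 1 : ℕ) : ℝ) ≤ 7000 := by exact_mod_cast hn
        linarith
      have h1q : 1 - qf w p ≤ kap := by linarith
      refine ⟨bb n + kap ^ (n + 1), EE n w * (1 - qf w p), 0, ?_, ?_⟩
      · intro a
        have h2 := (HH_le_Phi n (w + a))
        unfold Phi at h2
        rw [EE_add] at h2
        have hk : kk n (w + a) = kap ^ n := by
          unfold kk; rw [if_pos (by omega), if_neg (by omega)]; ring
        rw [hk] at h2
        have h3 : (1 - qf w p) * HH n (w + a) ≤ (1 - qf w p) * (EE n w * zz ^ a + bb n + kap ^ n) :=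
          mul_le_mul_of_nonneg_left h2 (by linarith)
        have h4 : (1 - qf w p) * kap ^ n ≤ kap * kap ^ n :=
          mul_le_mul_of_nonneg_right h1q (by positivity)
        have h5 : (1 - qf w p) * bb n ≤ 1 * bb n := mul_le_mul_of_nonneg_right (by linarith) hbn
        rw [pow_succ]
        nlinarith
      · rw [hHH]
        unfold Phi
        have hk : kk (n + 1) w = kap ^ (n + 1) := by
          unfold kk; rw [if_pos (by omega), if_neg (by omega)]; ring
        rw [hk]
        have hzi : 0 < 1 / zz := one_div_pos.mpr zz_pos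
        have h6 : EE n w * (1 - qf w p) * Real.exp (lam * (zz - 1))
            ≤ EE n w * (1 - qf w p * (1 - 1 / zz)) * Real.exp (lam * (zz - 1)) := by
          apply mul_le_mul_of_nonneg_right _ (Real.exp_pos _).le
          apply mul_le_mul_of_nonneg_left _ hEn.le
          nlinarith [mul_nonneg hq0 hzi.le]
        linarith

/-- the Lyapunov function, `n` = number of remaining slots of round `K` -/
noncomputable def VV (w K n : ℕ) : ℝ :=
  (1 + 320 * lam) * n + (1 + 2 ^ K / 2) * (min n 7000 : ℕ) + 320 * max ((w : ℝ) - RR K / 16) 0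
    + 12 * RR K * HH n w

theorem VV_nonneg (w K n : ℕ) : 0 ≤ VV w K n := by
  unfold VV
  have h1 := lam_pos
  have h2 := HH_nonneg n w
  have h3 := RR_ge K
  have h4 : 0 ≤ max ((w : ℝ) - RR K / 16) 0 := le_max_right _ _
  have h5 : (0 : ℝ) ≤ ((min n 7000 : ℕ) : ℝ) := Nat.cast_nonneg _
  have h6 : (0 : ℝ) ≤ 2 ^ K / 2 := by positivity
  have : 0 ≤ 12 * RR K * HH n w := by
    apply mul_nonneg _ h2; linarith
  positivity

theorem HH_zero (w : ℕ) : HH 0 w = 1 := by
  unfold HH
  apply min_eq_left
  unfold Phi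
  have h1 := EE_pos 0 w
  have h2 := bb_nonneg 0
  have h3 : 1 ≤ kk 0 w := by
    unfold kk; rw [if_pos (by omega)]
    split_ifs <;> norm_num
  linarith

/-- end of the round: passing to the next, longer round -/
theorem VV_end (w K : ℕ) : VV w (K + 1) (7000 * 2 ^ (K + 1)) ≤ VV w K 0 := by
  have hR := RR_ge K
  have hR2 : RR (K + 1) = 2 * RR K := by unfold RR; ring
  have hcast : ((7000 * 2 ^ (K + 1) : ℕ) : ℝ) = 2 * RR K := by
    unfold RR; push_cast; ring
  have hmin : min (7000 * 2 ^ (K + 1)) 7000 = 7000 := by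
    apply min_eq_right
    have : 1 ≤ 2 ^ (K + 1) := Nat.one_le_two_pow
    omega
  unfold VV
  rw [hmin, hcast, hR2, HH_zero]
  simp only [Nat.zero_min, Nat.cast_zero, mul_zero, zero_add, mul_one]
  have h2K : (2 : ℝ) ^ (K + 1) / 2 * 7000 = RR K := by unfold RR; ring
  have hlam : 320 * lam = 8 / 25 := by unfold lam; norm_num
  rw [hlam]
  set R := RR K with hRdef
  have hH0 := HH_nonneg (7000 * 2 ^ (K + 1)) w
  have hH1 := HH_le_one (7000 * 2 ^ (K + 1)) w
  have hm0 : 0 ≤ max ((w : ℝ) - R / 16) 0 := le_max_right _ _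
  have hm1 : (w : ℝ) - R / 16 ≤ max ((w : ℝ) - R / 16) 0 := le_max_left _ _
  push_cast
  rcases le_or_gt (w : ℝ) (R / 8) with hw | hw
  · -- small w
    have hmax : max ((w : ℝ) - 2 * R / 16) 0 = 0 := max_eq_right (by linarith)
    rw [hmax]
    have hquarter : HH (7000 * 2 ^ (K + 1)) w ≤ 1 / 4 := by
      refine (HH_le_Phi _ _).trans ?_
      unfold Phi
      have hb := bb_le (7000 * 2 ^ (K + 1))
      have hk : kk (7000 * 2 ^ (K + 1)) w = 2 * kap ^ 7000 := by
        unfold kk; rw [if_neg]
        have : 2 ≤ 2 ^ (K + 1) := by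
          calc 2 = 2 ^ 1 := by norm_num
            _ ≤ 2 ^ (K + 1) := Nat.pow_le_pow_right (by norm_num) (by omega)
        omega
      have hkp := kap_pow
      have hw' : 8 * w ≤ 7000 * 2 ^ K := by
        have : (8 * w : ℝ) ≤ 7000 * 2 ^ K := by
          have : (8 * w : ℝ) ≤ R := by linarith
          rw [hRdef] at this; unfold RR at this; exact this
        exact_mod_cast this
      have hE : EE (7000 * 2 ^ (K + 1)) w ≤ 1 / xi ^ 400 := by
        unfold EE
        rw [div_le_div_iff₀ (by have := xi_pos; positivity) (by have := xi_pos; positivity), one_mul,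
          ← pow_add]
        apply pow_le_pow_right₀ one_lt_xi.le
        have : 2 ^ (K + 1) = 2 * 2 ^ K := by ring
        rw [this]
        omega
      have hE2 : (1 : ℝ) / xi ^ 400 ≤ 1 / 100 := by
        rw [div_le_div_iff₀ (by have := xi_pos; positivity) (by norm_num)]
        have h200 : (100 : ℝ) ≤ xi ^ 200 := by unfold xi; norm_num
        have h400 : xi ^ 200 ≤ xi ^ 400 := pow_le_pow_right₀ one_lt_xi.le (by norm_num)
        linarith
      rw [hk]
      linarith
    have e1 : (1 + 2 ^ (K + 1) / 2 : ℝ) * 7000 = 7000 + R := by rw [hRdef]; unfold RR; ring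
    rw [e1]
    nlinarith
  · have hmax : max ((w : ℝ) - 2 * R / 16) 0 = (w : ℝ) - 2 * R / 16 := max_eq_left (by linarith)
    rw [hmax]
    have e1 : (1 + 2 ^ (K + 1) / 2 : ℝ) * 7000 = 7000 + R := by rw [hRdef]; unfold RR; ring
    rw [e1]
    nlinarith

end Pool.Agent.MPba3ff3
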