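import Mathlib

set_option autoImplicit false

namespace Pool.Agent.MPba3ff3

open scoped ENNReal Topology
open Filter

/-- Time-`n` law of the chain with kernel `P` started from `x0`. -/
noncomputable def law {X : Type*} (P : X → X → ℝ≥0∞) (x0 : X) : ℕ → X → ℝ≥0∞
  | 0 => Set.indicator {x0} 1
  | n + 1 => fun y => ∑' x, law P x0 n x * P x y

theorem law_mass {X : Type*} (P : X → X → ℝ≥0∞) (hP : ∀ x, ∑' y, P x y = 1) (x0 : X) (n : ℕ) :
    ∑' y, law P x0 n y = 1 := by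
  induction n with
  | zero =>
    simp only [law]
    rw [← tsum_subtype]
    simp
  | succ n ih =>
    simp only [law]
    rw [ENNReal.tsum_comm]
    simp_rw [ENNReal.tsum_mul_left, hP, mul_one]
    exact ih

theorem law_drift {X : Type*} [DecidableEq X] (P : X → X → ℝ≥0∞) (hP : ∀ x, ∑' y, P x y = 1)
    (V : X → ℝ≥0∞) (x0 : X) (C : Finset X) (b : ℝ≥0∞)
    (hdrift : ∀ x, ∑' y, P x y * V y + 1 ≤ V x + (if x ∈ C then b else 0)) (n : ℕ) :
    ∑' y, law P x0 n y * V y + n ≤ V x0 + b * ∑ k ∈ Finset.range n, ∑ x ∈ C, law P x0 k x := by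
  induction n with
  | zero =>
    simp only [law, Nat.cast_zero, add_zero, Finset.range_zero, Finset.sum_empty, mul_zero]
    rw [tsum_eq_single x0]
    · simp
    · intro y hy
      simp [Set.indicator_of_notMem, hy]
  | succ n ih =>
    have h1 : ∑' y, law P x0 (n + 1) y * V y = ∑' x, law P x0 n x * ∑' y, P x y * V y := by
      simp only [law]
      simp_rw [← ENNReal.tsum_mul_right]
      rw [ENNReal.tsum_comm]
      congr 1
      ext x
      rw [← ENNReal.tsum_mul_left]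
      congr 1
      ext y
      rw [mul_assoc]
    have h2 : ∑' x, law P x0 n x * ∑' y, P x y * V y + 1
        ≤ ∑' x, law P x0 n x * V x + b * ∑ x ∈ C, law P x0 n x := by
      calc ∑' x, law P x0 n x * ∑' y, P x y * V y + 1
          = ∑' x, law P x0 n x * ∑' y, P x y * V y + ∑' x, law P x0 n x * 1 := by
            simp [law_mass P hP x0 n]
        _ = ∑' x, law P x0 n x * (∑' y, P x y * V y + 1) := by
            rw [← ENNReal.tsum_add]; congr 1; ext x; rw [mul_add]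
        _ ≤ ∑' x, law P x0 n x * (V x + (if x ∈ C then b else 0)) := by
            exact ENNReal.tsum_le_tsum fun x => mul_le_mul_right (hdrift x) _
        _ = ∑' x, law P x0 n x * V x + ∑' x, law P x0 n x * (if x ∈ C then b else 0) := by
            rw [← ENNReal.tsum_add]; congr 1; ext x; rw [mul_add]
        _ = ∑' x, law P x0 n x * V x + b * ∑ x ∈ C, law P x0 n x := by
            congr 1
            rw [tsum_eq_sum (s := C)]
            · rw [Finset.mul_sum]
              apply Finset.sum_congr rfl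
              intro x hx
              simp [hx, mul_comm]
            · intro x hx
              simp [hx]
    rw [h1, Finset.sum_range_succ, mul_add, ← add_assoc]
    push_cast
    calc ∑' x, law P x0 n x * ∑' y, P x y * V y + ((n : ℝ≥0∞) + 1)
        = (∑' x, law P x0 n x * ∑' y, P x y * V y + 1) + n := by ring
      _ ≤ (∑' x, law P x0 n x * V x + b * ∑ x ∈ C, law P x0 n x) + n := by gcongr
      _ = (∑' x, law P x0 n x * V x + n) + b * ∑ x ∈ C, law P x0 n x := by ring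
      _ ≤ _ := by gcongr

/-- Foster's criterion on a discrete state space: a drift condition outside a finite set gives an
invariant probability. -/
theorem exists_invariant {X : Type*} [DecidableEq X] (P : X → X → ℝ≥0∞)
    (hP : ∀ x, ∑' y, P x y = 1)
    (V : X → ℝ≥0∞) (x0 : X) (hV0 : V x0 ≠ ∞) (C : Finset X) (b : ℝ≥0∞) (hb : b ≠ ∞)
    (hdrift : ∀ x, ∑' y, P x y * V y + 1 ≤ V x + (if x ∈ C then b else 0)) :
    ∃ π : X → ℝ≥0∞, (∑' x, π x = 1) ∧ ∀ y, ∑' x, π x * P x y = π y := by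
  have hPle : ∀ x y, P x y ≤ 1 := fun x y => (ENNReal.le_tsum y).trans (hP x).le
  have hPtop : ∀ x y, P x y ≠ ∞ := fun x y => ne_top_of_le_ne_top ENNReal.one_ne_top (hPle x y)
  set μ := law P x0 with hμ
  have hμmass : ∀ n, ∑' y, μ n y = 1 := law_mass P hP x0
  have hμle : ∀ n y, μ n y ≤ 1 := fun n y => (ENNReal.le_tsum y).trans (hμmass n).le
  -- Cesaro averages
  let ν : ℕ → X → ℝ≥0∞ := fun n y => ((n + 1 : ℕ) : ℝ≥0∞)⁻¹ * (∑ k ∈ Finset.range (n + 1), μ k y)
  have hnz : ∀ n : ℕ, ((n + 1 : ℕ) : ℝ≥0∞) ≠ 0 := fun n => by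
    simp
  have hnt : ∀ n : ℕ, ((n + 1 : ℕ) : ℝ≥0∞) ≠ ∞ := fun n => ENNReal.natCast_ne_top _
  -- ultrafilter limit
  let U : Ultrafilter ℕ := hyperfilter ℕ
  have hU : (U : Filter ℕ) ≤ atTop := Nat.hyperfilter_le_atTop
  obtain ⟨ρ, -, hρ⟩ := (isCompact_univ : IsCompact (Set.univ : Set (X → ℝ≥0∞))).ultrafilter_le_nhds
    (U.map ν) (by simp)
  have hlim : Tendsto ν U (𝓝 ρ) := hρ
  have hlimx : ∀ x, Tendsto (fun n => ν n x) U (𝓝 (ρ x)) := fun x => (tendsto_pi_nhds.mp hlim) x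
  have hmassν : ∀ n, ∑' y, ν n y = 1 := by
    intro n
    simp only [ν]
    rw [ENNReal.tsum_mul_left]
    have : ∑' y, ∑ k ∈ Finset.range (n + 1), μ k y = ((n + 1 : ℕ) : ℝ≥0∞) := by
      rw [Summable.tsum_finsetSum (fun _ _ => ENNReal.summable)]
      simp [hμmass]
    rw [this]
    exact ENNReal.inv_mul_cancel (hnz n) (hnt n)
  have hinvt : Tendsto (fun n : ℕ => ((n + 1 : ℕ) : ℝ≥0∞)⁻¹) U (𝓝 0) := by
    have h := ENNReal.tendsto_inv_nat_nhds_zero
    exact ((tendsto_add_atTop_iff_nat 1).mpr h).mono_left hU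
  -- total mass at most one
  have hρmass : ∑' y, ρ y ≤ 1 := by
    rw [ENNReal.tsum_eq_iSup_sum]
    apply iSup_le
    intro s
    have ht : Tendsto (fun n => ∑ y ∈ s, ν n y) U (𝓝 (∑ y ∈ s, ρ y)) :=
      tendsto_finsetSum _ (fun y _ => hlimx y)
    refine le_of_tendsto ht (Eventually.of_forall fun n => ?_)
    exact (ENNReal.sum_le_tsum s).trans (hmassν n).le
  -- sub-invariance
  have hsub : ∀ y, ∑' x, ρ x * P x y ≤ ρ y := by
    intro y
    rw [ENNReal.tsum_eq_iSup_sum]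
    apply iSup_le
    intro s
    have ht : Tendsto (fun n => ∑ x ∈ s, ν n x * P x y) U (𝓝 (∑ x ∈ s, ρ x * P x y)) :=
      tendsto_finsetSum _ (fun x _ => ENNReal.Tendsto.mul_const (hlimx x) (Or.inr (hPtop x y)))
    have ht2 : Tendsto (fun n => ν n y + ((n + 1 : ℕ) : ℝ≥0∞)⁻¹) U (𝓝 (ρ y + 0)) :=
      (hlimx y).add hinvt
    rw [add_zero] at ht2
    refine le_of_tendsto_of_tendsto' ht ht2 (fun n => ?_)
    have h1 : ∑' x, ν n x * P x y
        = ((n + 1 : ℕ) : ℝ≥0∞)⁻¹ * (∑ k ∈ Finset.range (n + 1), μ (k + 1) y) := by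
      simp only [ν]
      simp_rw [mul_assoc]
      rw [ENNReal.tsum_mul_left]
      congr 1
      simp_rw [Finset.sum_mul]
      rw [Summable.tsum_finsetSum (fun _ _ => ENNReal.summable)]
      rfl
    calc ∑ x ∈ s, ν n x * P x y ≤ ∑' x, ν n x * P x y := ENNReal.sum_le_tsum s
      _ = ((n + 1 : ℕ) : ℝ≥0∞)⁻¹ * (∑ k ∈ Finset.range (n + 1), μ (k + 1) y) := h1
      _ ≤ ((n + 1 : ℕ) : ℝ≥0∞)⁻¹ * (∑ k ∈ Finset.range (n + 1), μ k y + 1) := by
          gcongr
          have e1 : ∑ k ∈ Finset.range (n + 1 + 1), μ k y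
              = ∑ k ∈ Finset.range (n + 1), μ (k + 1) y + μ 0 y := Finset.sum_range_succ' _ _
          have e2 : ∑ k ∈ Finset.range (n + 1 + 1), μ k y
              = ∑ k ∈ Finset.range (n + 1), μ k y + μ (n + 1) y := Finset.sum_range_succ _ _
          calc ∑ k ∈ Finset.range (n + 1), μ (k + 1) y
              ≤ ∑ k ∈ Finset.range (n + 1), μ (k + 1) y + μ 0 y := le_self_add
            _ = ∑ k ∈ Finset.range (n + 1), μ k y + μ (n + 1) y := by rw [← e1, e2]
            _ ≤ _ := by gcongr; exact hμle _ _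
      _ = ν n y + ((n + 1 : ℕ) : ℝ≥0∞)⁻¹ := by
          simp only [ν]; rw [mul_add, mul_one]
  -- positivity
  have hpos : ∑' y, ρ y ≠ 0 := by
    intro h0
    have hz : ∀ y, ρ y = 0 := ENNReal.tsum_eq_zero.mp h0
    have ht : Tendsto (fun n => V x0 * ((n + 1 : ℕ) : ℝ≥0∞)⁻¹ + b * ∑ x ∈ C, ν n x) U
        (𝓝 (V x0 * 0 + b * ∑ x ∈ C, ρ x)) := by
      apply Tendsto.add
      · exact ENNReal.Tendsto.const_mul hinvt (Or.inr hV0)
      · exact ENNReal.Tendsto.const_mul (tendsto_finsetSum _ (fun x _ => hlimx x)) (Or.inr hb)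
    have hge : ∀ n : ℕ, (1 : ℝ≥0∞) ≤ V x0 * ((n + 1 : ℕ) : ℝ≥0∞)⁻¹ + b * ∑ x ∈ C, ν n x := by
      intro n
      have h := law_drift P hP V x0 C b hdrift (n + 1)
      have h' : ((n + 1 : ℕ) : ℝ≥0∞) ≤ V x0 + b * ∑ k ∈ Finset.range (n + 1), ∑ x ∈ C, μ k x :=
        le_trans le_add_self h
      calc (1 : ℝ≥0∞) = ((n + 1 : ℕ) : ℝ≥0∞) * ((n + 1 : ℕ) : ℝ≥0∞)⁻¹ :=
            (ENNReal.mul_inv_cancel (hnz n) (hnt n)).symm
        _ ≤ (V x0 + b * ∑ k ∈ Finset.range (n + 1), ∑ x ∈ C, μ k x) * ((n + 1 : ℕ) : ℝ≥0∞)⁻¹ := by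
            gcongr
        _ = _ := by
            simp only [ν]
            rw [add_mul, Finset.sum_comm, mul_assoc b, ← Finset.mul_sum, mul_comm (_)⁻¹]
    have := ge_of_tendsto' ht hge
    simp [hz] at this
  -- invariance
  have hfin : ∑' y, ρ y ≠ ∞ := ne_top_of_le_ne_top ENNReal.one_ne_top hρmass
  have htot : ∑' y, ∑' x, ρ x * P x y = ∑' y, ρ y := by
    rw [ENNReal.tsum_comm]
    simp_rw [ENNReal.tsum_mul_left, hP, mul_one]
  have hinv : ∀ y, ∑' x, ρ x * P x y = ρ y := by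
    have hd : ∑' y, (ρ y - ∑' x, ρ x * P x y) = 0 := by
      have e : ∑' y, (ρ y - ∑' x, ρ x * P x y) + ∑' y, ∑' x, ρ x * P x y = ∑' y, ρ y := by
        rw [← ENNReal.tsum_add]
        congr 1
        ext y
        exact tsub_add_cancel_of_le (hsub y)
      rw [htot] at e
      have e' : ∑' y, (ρ y - ∑' x, ρ x * P x y) + ∑' y, ρ y = 0 + ∑' y, ρ y := by
        rw [zero_add]; exact e
      exact (ENNReal.add_left_inj hfin).mp e'
    intro y
    have := ENNReal.tsum_eq_zero.mp hd y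
    exact le_antisymm (hsub y) (tsub_eq_zero_iff_le.mp this)
  refine ⟨fun x => (∑' y, ρ y)⁻¹ * ρ x, ?_, ?_⟩
  · rw [ENNReal.tsum_mul_left]
    exact ENNReal.inv_mul_cancel hpos hfin
  · intro y
    simp_rw [mul_assoc]
    rw [ENNReal.tsum_mul_left, hinv y]

end Pool.Agent.MPba3ff3
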