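import Mathlib
import Pool.Agent.MPba3ff3.Foster
import Pool.Agent.MPba3ff3.Drift

set_option autoImplicit false

namespace Pool.Agent.MPba3ff3

open scoped ENNReal Topology
open Filter

/-- attempt probability attached to the protocol state `(K, i)` -/
noncomputable def enc (s : ℕ × ℕ) : ℝ := 4 / (200 + ((s.2 + 1 : ℕ) : ℝ) + 1 / ((s.1 : ℝ) + 2))

/-- protocol state after a success -/
def sS (s : ℕ × ℕ) : ℕ × ℕ := if s.2 < 7000 then (0, 6999) else (s.1, s.2 - 1)
/-- protocol state after a slot without success -/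
def sF (s : ℕ × ℕ) : ℕ × ℕ := if s.2 = 0 then (s.1 + 1, 7000 * 2 ^ (s.1 + 1) - 1) else (s.1, s.2 - 1)

theorem frac_bounds (K : ℕ) : 0 < 1 / ((K : ℝ) + 2) ∧ 1 / ((K : ℝ) + 2) ≤ 1 / 2 := by
  have : (0 : ℝ) ≤ K := Nat.cast_nonneg K
  constructor
  · positivity
  · apply one_div_le_one_div_of_le (by norm_num); linarith

theorem enc_lower (s : ℕ × ℕ) : 4 / ((200 + (s.2 + 1 : ℕ) : ℝ) + 1 / 2) ≤ enc s := by
  have h := frac_bounds s.1
  unfold enc
  apply div_le_div_of_nonneg_left (by norm_num) (by positivity)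
  linarith

theorem enc_upper (s : ℕ × ℕ) : enc s ≤ 4 / (200 + (s.2 + 1 : ℕ) : ℝ) := by
  have h := frac_bounds s.1
  unfold enc
  apply div_le_div_of_nonneg_left (by norm_num) (by positivity)
  linarith

theorem enc_pos (s : ℕ × ℕ) : 0 < enc s := by
  unfold enc; positivity

theorem enc_le_one (s : ℕ × ℕ) : enc s ≤ 1 := by
  refine (enc_upper s).trans ?_
  rw [div_le_one (by positivity)]
  have : (0 : ℝ) ≤ ((s.2 + 1 : ℕ) : ℝ) := Nat.cast_nonneg _
  linarith

theorem enc_injective : Function.Injective enc := by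
  rintro ⟨K, i⟩ ⟨K', i'⟩ h
  obtain ⟨h1, h2⟩ := frac_bounds K
  obtain ⟨h3, h4⟩ := frac_bounds K'
  unfold enc at h
  simp only at h
  have hd : (200 + ((i + 1 : ℕ) : ℝ) + 1 / ((K : ℝ) + 2)) = (200 + ((i' + 1 : ℕ) : ℝ) + 1 / ((K' : ℝ) + 2)) := by
    have hA : (200 + ((i + 1 : ℕ) : ℝ) + 1 / ((K : ℝ) + 2)) ≠ 0 := by positivity
    have hB : (200 + ((i' + 1 : ℕ) : ℝ) + 1 / ((K' : ℝ) + 2)) ≠ 0 := by positivity
    rw [div_eq_div_iff hA hB] at h
    linarith
  push_cast at hd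
  have hi : i = i' := by
    have ha : (i : ℝ) < i' + 1 := by linarith
    have hb : (i' : ℝ) < i + 1 := by linarith
    have ha' : i < i' + 1 := by exact_mod_cast ha
    have hb' : i' < i + 1 := by exact_mod_cast hb
    omega
  subst hi
  have he : 1 / ((K : ℝ) + 2) = 1 / ((K' : ℝ) + 2) := by linarith
  have hK : (K : ℝ) + 2 = K' + 2 := by
    have hk1 : ((K : ℝ) + 2) ≠ 0 := by positivity
    have hk2 : ((K' : ℝ) + 2) ≠ 0 := by positivity
    rw [div_eq_div_iff hk1 hk2] at he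
    linarith
  have : (K : ℝ) = K' := by linarith
  have : K = K' := by exact_mod_cast this
  subst this
  rfl

/-- success probability in state `(w, s)` -/
noncomputable def Q (x : ℕ × ℕ × ℕ) : ℝ := qf x.1 (enc x.2)

theorem Q_nonneg (x : ℕ × ℕ × ℕ) : 0 ≤ Q x := qf_nonneg _ _ (enc_pos _).le (enc_le_one _)
theorem Q_le_one (x : ℕ × ℕ × ℕ) : Q x ≤ 1 := qf_le_one _ _ (enc_pos _).le (enc_le_one _)

/-- transition kernel -/
noncomputable def P (x y : ℕ × ℕ × ℕ) : ℝ≥0∞ :=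
  ∑' a : ℕ, ENNReal.ofReal (poi a) *
    (ENNReal.ofReal (Q x) * (if y = (x.1 - 1 + a, sS x.2) then 1 else 0)
      + ENNReal.ofReal (1 - Q x) * (if y = (x.1 + a, sF x.2) then 1 else 0))

theorem P_apply (x : ℕ × ℕ × ℕ) (g : ℕ × ℕ × ℕ → ℝ≥0∞) :
    ∑' y, P x y * g y = ∑' a : ℕ, ENNReal.ofReal (poi a) *
      (ENNReal.ofReal (Q x) * g (x.1 - 1 + a, sS x.2)
        + ENNReal.ofReal (1 - Q x) * g (x.1 + a, sF x.2)) := by
  unfold P
  simp_rw [← ENNReal.tsum_mul_right]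
  rw [ENNReal.tsum_comm]
  congr 1
  funext a
  have e : ∀ y : ℕ × ℕ × ℕ, ENNReal.ofReal (poi a) *
      (ENNReal.ofReal (Q x) * (if y = (x.1 - 1 + a, sS x.2) then 1 else 0)
      + ENNReal.ofReal (1 - Q x) * (if y = (x.1 + a, sF x.2) then 1 else 0)) * g y
      = (if y = (x.1 - 1 + a, sS x.2) then ENNReal.ofReal (poi a) * (ENNReal.ofReal (Q x) * g (x.1 - 1 + a, sS x.2)) else 0)
      + (if y = (x.1 + a, sF x.2) then ENNReal.ofReal (poi a) * (ENNReal.ofReal (1 - Q x) * g (x.1 + a, sF x.2)) else 0) := by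
    intro y
    by_cases h1 : y = (x.1 - 1 + a, sS x.2) <;> by_cases h2 : y = (x.1 + a, sF x.2)
    · rw [if_pos h1, if_pos h2, if_pos h1, if_pos h2, ← h1, ← h2]; ring
    · rw [if_pos h1, if_neg h2, if_pos h1, if_neg h2, ← h1]; ring
    · rw [if_neg h1, if_pos h2, if_neg h1, if_pos h2, ← h2]; ring
    · rw [if_neg h1, if_neg h2, if_neg h1, if_neg h2]; ring
  simp_rw [e]
  rw [ENNReal.tsum_add, tsum_ite_eq, tsum_ite_eq, mul_add]

theorem ofReal_mix (q : ℝ) (h0 : 0 ≤ q) (h1 : q ≤ 1) (a b : ℝ) (ha : 0 ≤ a) (hb : 0 ≤ b) :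
    ENNReal.ofReal q * ENNReal.ofReal a + ENNReal.ofReal (1 - q) * ENNReal.ofReal b
      = ENNReal.ofReal (q * a + (1 - q) * b) := by
  rw [← ENNReal.ofReal_mul h0, ← ENNReal.ofReal_mul (by linarith), ← ENNReal.ofReal_add]
  · exact mul_nonneg h0 ha
  · exact mul_nonneg (by linarith) hb

theorem P_row (x : ℕ × ℕ × ℕ) : ∑' y, P x y = 1 := by
  have h := P_apply x (fun _ => 1)
  simp only [mul_one] at h
  rw [h]
  have e : ENNReal.ofReal (Q x) + ENNReal.ofReal (1 - Q x) = 1 := by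
    rw [← ENNReal.ofReal_add (Q_nonneg x) (by have := Q_le_one x; linarith)]
    simp
  simp_rw [e, mul_one]
  rw [← ENNReal.ofReal_tsum_of_nonneg poi_nonneg poi_hasSum_one.summable, poi_hasSum_one.tsum_eq]
  simp

/-- the Lyapunov function on the state space -/
noncomputable def VX (x : ℕ × ℕ × ℕ) : ℝ := VV x.1 x.2.1 (x.2.2 + 1)

theorem poi_bound_nonneg (h : ℕ → ℝ) (A0 A1 A2 A3 : ℝ) (h0 : ∀ a, 0 ≤ h a)
    (hh : ∀ a, h a ≤ A0 + A1 * a + A2 * zz ^ a + A3 * (if a = 0 then 1 else 0)) :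
    0 ≤ A0 + A1 * lam + A2 * Real.exp (lam * (zz - 1)) + A3 * Real.exp (-lam) := by
  have hs : HasSum (fun a : ℕ => poi a * (A0 + A1 * a + A2 * zz ^ a + A3 * (if a = 0 then 1 else 0)))
      (A0 + A1 * lam + A2 * Real.exp (lam * (zz - 1)) + A3 * Real.exp (-lam)) := by
    have := (((poi_hasSum_one.mul_left A0).add (poi_hasSum_id.mul_left A1)).add
      ((poi_hasSum_pow zz).mul_left A2)).add (poi_hasSum_ind.mul_left A3)
    rw [mul_one] at this
    refine HasSum.congr_fun this fun a => ?_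
    ring
  rw [← hs.tsum_eq]
  exact tsum_nonneg fun a => mul_nonneg (poi_nonneg a) ((h0 a).trans (hh a))

/-- real drift bound implies the drift bound in `ℝ≥0∞` -/
theorem drift_of_real (x : ℕ × ℕ × ℕ) (A0 A1 A2 A3 b : ℝ) (hb : 0 ≤ b)
    (hh : ∀ a, Q x * VX (x.1 - 1 + a, sS x.2) + (1 - Q x) * VX (x.1 + a, sF x.2)
      ≤ A0 + A1 * a + A2 * zz ^ a + A3 * (if a = 0 then 1 else 0))
    (hA : A0 + A1 * lam + A2 * Real.exp (lam * (zz - 1)) + A3 * Real.exp (-lam) + 1 ≤ VX x + b) :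
    ∑' y, P x y * ENNReal.ofReal (VX y) + 1 ≤ ENNReal.ofReal (VX x) + ENNReal.ofReal b := by
  have hV : ∀ y, 0 ≤ VX y := fun y => VV_nonneg _ _ _
  have h0 : ∀ a, 0 ≤ Q x * VX (x.1 - 1 + a, sS x.2) + (1 - Q x) * VX (x.1 + a, sF x.2) := by
    intro a
    have h1 := Q_nonneg x
    have h2 := Q_le_one x
    have h3 := hV (x.1 - 1 + a, sS x.2)
    have h4 := hV (x.1 + a, sF x.2)
    have := mul_nonneg h1 h3
    have := mul_nonneg (by linarith : (0:ℝ) ≤ 1 - Q x) h4
    linarith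
  rw [P_apply x (fun y => ENNReal.ofReal (VX y))]
  simp_rw [ofReal_mix (Q x) (Q_nonneg x) (Q_le_one x) _ _ (hV _) (hV _)]
  have hp := poi_bound _ A0 A1 A2 A3 h0 hh
  have hn := poi_bound_nonneg _ A0 A1 A2 A3 h0 hh
  calc _ ≤ ENNReal.ofReal (A0 + A1 * lam + A2 * Real.exp (lam * (zz - 1)) + A3 * Real.exp (-lam)) + 1 := by
        gcongr
    _ = ENNReal.ofReal (A0 + A1 * lam + A2 * Real.exp (lam * (zz - 1)) + A3 * Real.exp (-lam) + 1) := by
        rw [ENNReal.ofReal_add hn zero_le_one]; simp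
    _ ≤ ENNReal.ofReal (VX x + b) := ENNReal.ofReal_le_ofReal hA
    _ = _ := ENNReal.ofReal_add (hV x) hb

theorem max_shift (w a : ℕ) (c : ℝ) : max (((w + a : ℕ) : ℝ) - c) 0 ≤ max ((w : ℝ) - c) 0 + a := by
  have ha : (0 : ℝ) ≤ a := Nat.cast_nonneg a
  apply max_le
  · push_cast
    have := le_max_left ((w : ℝ) - c) 0
    linarith
  · have := le_max_right ((w : ℝ) - c) 0
    linarith

theorem max_shift' (w a : ℕ) (c : ℝ) : max (((w - 1 + a : ℕ) : ℝ) - c) 0 ≤ max ((w : ℝ) - c) 0 + a := by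
  refine le_trans ?_ (max_shift w a c)
  apply max_le_max_right
  have : ((w - 1 + a : ℕ) : ℝ) ≤ ((w + a : ℕ) : ℝ) := by exact_mod_cast (by omega)
  linarith

/-- drift in the ramp part of a round -/
theorem drift_ramp (w K i : ℕ) (hi : 7000 ≤ i) :
    ∑' y, P (w, K, i) y * ENNReal.ofReal (VX y) + 1 ≤ ENNReal.ofReal (VX (w, K, i)) := by
  have hlow := enc_lower (K, i)
  have hup := enc_upper (K, i)
  simp only at hlow hup
  obtain ⟨A0, A2, hA, hB⟩ := H_ramp i w hi (enc (K, i)) hlow hup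
  have hs : sS (K, i) = (K, i - 1) := by unfold sS; rw [if_neg (by simp; omega)]
  have hf : sF (K, i) = (K, i - 1) := by unfold sF; rw [if_neg (by simp; omega)]
  have hi1 : i - 1 + 1 = i := by omega
  have hRpos : 0 < 12 * RR K := by have := RR_ge K; linarith
  have hlam := lam_pos
  have hmain := drift_of_real (w, K, i)
    ((1 + 320 * lam) * i + (1 + 2 ^ K / 2) * 7000 + 320 * max ((w : ℝ) - RR K / 16) 0 + 12 * RR K * A0)
    320 (12 * RR K * A2) 0 0 le_rfl ?_ ?_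
  · simpa using hmain
  · intro a
    simp only [hs, hf]
    unfold VX
    simp only [hi1]
    have hq0 := Q_nonneg (w, K, i)
    have hq1 := Q_le_one (w, K, i)
    have hAa := hA a
    have hQ : qf w (enc (K, i)) = Q (w, K, i) := rfl
    rw [hQ] at hAa
    set q := Q (w, K, i)
    unfold VV
    have hmin : min i 7000 = 7000 := by omega
    rw [hmin]
    push_cast
    have m1 := max_shift' w a (RR K / 16)
    have m2 := max_shift w a (RR K / 16)
    push_cast at m1 m2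
    have m1' := mul_le_mul_of_nonneg_left m1 hq0
    have m2' := mul_le_mul_of_nonneg_left m2 (by linarith : (0:ℝ) ≤ 1 - q)
    have m3 := mul_le_mul_of_nonneg_left hAa hRpos.le
    simp only [mul_zero, add_zero, zero_mul] at *
    nlinarith
  · unfold VX VV
    simp only
    have hmin : min (i + 1) 7000 = 7000 := by omega
    rw [hmin]
    have m3 := mul_le_mul_of_nonneg_left hB hRpos.le
    have e1 : ((i + 1 : ℕ) : ℝ) = i + 1 := by push_cast; ring
    have e2 : ((7000 : ℕ) : ℝ) = 7000 := by norm_num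
    rw [e1, e2]
    clear hs hf hi1 hmin hlow hup hA hi
    generalize HH (i + 1) w = X at *
    generalize (i : ℝ) = I at *
    generalize max ((w : ℝ) - RR K / 16) 0 = M at *
    generalize (2 : ℝ) ^ K = T at *
    generalize RR K = R at *
    linarith

end Pool.Agent.MPba3ff3
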