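import Mathlib
import Pool.Agent.MPba3ff3.Chain

set_option autoImplicit false

namespace Pool.Agent.MPba3ff3

open scoped ENNReal Topology
open Filter

/-- drift in the test part of a round, up to the reset cost -/
theorem drift_test (w K i : ℕ) (hi : i < 7000) (b : ℝ) (hb : 0 ≤ b)
    (hc : Q (w, K, i) * (103740 + 320 * w) ≤ 1 + 2 ^ K / 2 + b) :
    ∑' y, P (w, K, i) y * ENNReal.ofReal (VX y) + 1
      ≤ ENNReal.ofReal (VX (w, K, i)) + ENNReal.ofReal b := by
  have hlow := enc_lower (K, i)
  have hup := enc_upper (K, i)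
  simp only at hlow hup
  obtain ⟨A0, A2, A3, hA, hB⟩ := H_test i w (by omega) (enc (K, i)) hlow hup
  have hs : sS (K, i) = (0, 6999) := by unfold sS; rw [if_pos (by simpa using hi)]
  have hRpos : 0 < 12 * RR K := by have := RR_ge K; linarith
  have hlam : lam = 1 / 1000 := rfl
  have hq0 := Q_nonneg (w, K, i)
  have hq1 := Q_le_one (w, K, i)
  have hQ : qf w (enc (K, i)) = Q (w, K, i) := rfl
  -- value after a failure
  have hfail : ∀ v, VX (v, sF (K, i)) ≤ VV v K i := by
    intro v
    unfold sF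
    by_cases h0 : i = 0
    · rw [if_pos (by simpa using h0)]
      unfold VX
      simp only
      have e : 7000 * 2 ^ (K + 1) - 1 + 1 = 7000 * 2 ^ (K + 1) := by
        have : 0 < 7000 * 2 ^ (K + 1) := by positivity
        omega
      rw [e, h0]
      exact VV_end v K
    · rw [if_neg (by simpa using h0)]
      unfold VX
      simp only
      have e : i - 1 + 1 = i := by omega
      rw [e]
  have hsucc : ∀ v : ℕ, VX (v, 0, 6999) ≤ 103740 + 320 * v := by
    intro v
    unfold VX VV
    simp only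
    have e : 6999 + 1 = 7000 := by norm_num
    have e1 : min (6999 + 1) 7000 = 7000 := by norm_num
    rw [e1, e, hlam]
    have hR : RR 0 = 7000 := by unfold RR; norm_num
    rw [hR]
    have hH := HH_le_one 7000 v
    have hv : (0 : ℝ) ≤ v := Nat.cast_nonneg v
    have hm : max ((v : ℝ) - 7000 / 16) 0 ≤ v := max_le (by linarith) hv
    norm_num
    linarith
  have hmain := drift_of_real (w, K, i)
    (Q (w, K, i) * (103740 + 320 * w) + ((1 + 320 * lam) * i + (1 + 2 ^ K / 2) * i
      + 320 * max ((w : ℝ) - RR K / 16) 0) + 12 * RR K * A0)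
    320 (12 * RR K * A2) (12 * RR K * A3) b hb ?_ ?_
  · exact hmain
  · intro a
    simp only [hs]
    have hAa := hA a
    rw [hQ] at hAa
    have h1 := hsucc (w - 1 + a)
    have h2 := hfail (w + a)
    generalize Q (w, K, i) = q at *
    have h3 : q * VX (w - 1 + a, 0, 6999) ≤ q * (103740 + 320 * (w + a)) := by
      apply mul_le_mul_of_nonneg_left _ hq0
      refine h1.trans ?_
      have : ((w - 1 + a : ℕ) : ℝ) ≤ ((w + a : ℕ) : ℝ) := by exact_mod_cast (by omega)
      push_cast at this ⊢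
      linarith
    have h4 : (1 - q) * VX (w + a, sF (K, i)) ≤ (1 - q) * VV (w + a) K i :=
      mul_le_mul_of_nonneg_left h2 (by linarith)
    have m2 := max_shift w a (RR K / 16)
    have hmin : min i 7000 = i := by omega
    have m3 := mul_le_mul_of_nonneg_left hAa hRpos.le
    have hM0 : 0 ≤ max ((w : ℝ) - RR K / 16) 0 := le_max_right _ _
    have hi0 : (0 : ℝ) ≤ i := Nat.cast_nonneg i
    have ha0 : (0 : ℝ) ≤ a := Nat.cast_nonneg a
    have hT : (0 : ℝ) < 2 ^ K := by positivity
    have hl : (0 : ℝ) < lam := lam_pos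
    have h5 : (1 - q) * VV (w + a) K i ≤ ((1 + 320 * lam) * i + (1 + 2 ^ K / 2) * i
      + 320 * max ((w : ℝ) - RR K / 16) 0) + (1 - q) * (320 * a) + 12 * RR K * ((1 - q) * HH i (w + a)) := by
      unfold VV
      rw [hmin]
      have h6 : (1 - q) * ((1 + 320 * lam) * i + (1 + 2 ^ K / 2) * i + 320 * max ((w : ℝ) - RR K / 16) 0)
          ≤ 1 * ((1 + 320 * lam) * i + (1 + 2 ^ K / 2) * i + 320 * max ((w : ℝ) - RR K / 16) 0) := by
        apply mul_le_mul_of_nonneg_right (by linarith)
        positivity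
      have h7 : (1 - q) * (320 * max (((w + a : ℕ) : ℝ) - RR K / 16) 0)
          ≤ (1 - q) * (320 * (max ((w : ℝ) - RR K / 16) 0 + a)) := by
        apply mul_le_mul_of_nonneg_left _ (by linarith)
        linarith
      nlinarith
    nlinarith
  · unfold VX VV
    simp only
    have hmin : min (i + 1) 7000 = i + 1 := by omega
    rw [hmin]
    have m3 := mul_le_mul_of_nonneg_left hB hRpos.le
    have e1 : ((i + 1 : ℕ) : ℝ) = i + 1 := by push_cast; ring
    rw [e1]
    have hgen : ∀ (X M T R I q c : ℝ), q * c ≤ 1 + T / 2 + b →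
        R * (A0 + A2 * Real.exp (lam * (zz - 1)) + A3 * Real.exp (-lam)) ≤ R * X →
        q * c + ((1 + 320 * lam) * I + (1 + T / 2) * I + 320 * M) + R * A0 + 320 * lam
          + R * A2 * Real.exp (lam * (zz - 1)) + R * A3 * Real.exp (-lam) + 1
        ≤ (1 + 320 * lam) * (I + 1) + (1 + T / 2) * (I + 1) + 320 * M + R * X + b := by
      intro X M T R I q c hx1 hx2
      linarith
    exact hgen _ _ _ _ _ _ _ hc m3

theorem exists_w1 : ∃ w1 : ℕ, ∀ w, w1 ≤ w → ∀ p : ℝ, 4 / (7000 + 201) ≤ p → p ≤ 1 →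
    qf w p * (103740 + 320 * w) ≤ 1 := by
  obtain ⟨r, hr⟩ : ∃ r : ℝ, r = 1 - 4 / (7000 + 201) := ⟨_, rfl⟩
  have hr0 : 0 < r := by rw [hr]; norm_num
  have hr1 : r < 1 := by rw [hr]; norm_num
  have habs : |r| < 1 := by rw [abs_of_pos hr0]; exact hr1
  have h1 := tendsto_pow_const_mul_const_pow_of_abs_lt_one 1 habs
  have h2 := tendsto_pow_const_mul_const_pow_of_abs_lt_one 2 habs
  have h3 : Tendsto (fun n : ℕ => (103740 * ((n : ℝ) ^ 1 * r ^ n) + 320 * ((n : ℝ) ^ 2 * r ^ n)) / r)
      atTop (𝓝 ((103740 * 0 + 320 * 0) / r)) :=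
    ((h1.const_mul _).add (h2.const_mul _)).div_const _
  have h4 : ∀ᶠ n : ℕ in atTop, (103740 * ((n : ℝ) ^ 1 * r ^ n) + 320 * ((n : ℝ) ^ 2 * r ^ n)) / r < 1 := by
    apply h3.eventually_lt_const
    simp
  obtain ⟨N, hN⟩ := eventually_atTop.mp h4
  refine ⟨max N 1, fun w hw p hp1 hp2 => ?_⟩
  have hwN : N ≤ w := le_trans (le_max_left _ _) hw
  have hw1 : 1 ≤ w := le_trans (le_max_right _ _) hw
  have h5 := hN w hwN
  have hp0 : 0 ≤ p := le_trans (by norm_num) hp1
  have h6 : qf w p ≤ w * (r ^ w / r) := by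
    unfold qf
    have h7 : (1 - p) ^ (w - 1) ≤ r ^ (w - 1) := pow_le_pow_left₀ (by linarith) (by linarith) _
    have h8 : r ^ w / r = r ^ (w - 1) := by
      obtain ⟨v, rfl⟩ : ∃ v, w = v + 1 := ⟨w - 1, by omega⟩
      rw [pow_succ, Nat.add_sub_cancel]
      field_simp
    rw [h8]
    have h9 : (w : ℝ) * p * (1 - p) ^ (w - 1) ≤ (w : ℝ) * 1 * r ^ (w - 1) := by
      apply mul_le_mul _ h7 (by apply pow_nonneg; linarith) (by positivity)
      exact mul_le_mul_of_nonneg_left hp2 (by positivity)
    linarith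
  have hw0 : (0 : ℝ) ≤ w := Nat.cast_nonneg w
  calc qf w p * (103740 + 320 * w) ≤ (w * (r ^ w / r)) * (103740 + 320 * w) :=
        mul_le_mul_of_nonneg_right h6 (by positivity)
    _ = (103740 * ((w : ℝ) ^ 1 * r ^ w) + 320 * ((w : ℝ) ^ 2 * r ^ w)) / r := by
        field_simp
    _ ≤ 1 := h5.le

/-- existence of an invariant probability for the chain on the protocol states -/
theorem exists_inv : ∃ π : ℕ × ℕ × ℕ → ℝ≥0∞, (∑' x, π x = 1) ∧ ∀ y, ∑' x, π x * P x y = π y := by
  obtain ⟨w1, hw1⟩ := exists_w1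
  obtain ⟨K1, hK1⟩ : ∃ K1 : ℕ, (103740 + 320 * (w1 : ℝ)) ≤ K1 := exists_nat_ge _
  set b : ℝ := 103740 + 320 * (w1 : ℝ) with hb
  have hb0 : 0 ≤ b := by positivity
  let C : Finset (ℕ × ℕ × ℕ) := (Finset.range w1) ×ˢ ((Finset.range (2 * K1 + 2)) ×ˢ (Finset.range 7000))
  refine exists_invariant P P_row (fun y => ENNReal.ofReal (VX y)) (0, 0, 0) ENNReal.ofReal_ne_top C
    (ENNReal.ofReal b) ENNReal.ofReal_ne_top ?_
  rintro ⟨w, K, i⟩
  rcases Nat.lt_or_ge i 7000 with hi | hi
  · have hpl : 4 / (7000 + 201) ≤ enc (K, i) := by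
      refine le_trans ?_ (enc_lower (K, i))
      apply div_le_div_of_nonneg_left (by norm_num) (by positivity)
      have : ((i + 1 : ℕ) : ℝ) ≤ 7000 := by exact_mod_cast (by omega : i + 1 ≤ 7000)
      simp only
      linarith
    have hpu := enc_le_one (K, i)
    have hQ : qf w (enc (K, i)) = Q (w, K, i) := rfl
    have h2K : (0 : ℝ) ≤ 2 ^ K / 2 := by positivity
    by_cases hw : w < w1
    · by_cases hK : K < 2 * K1 + 2
      · have hmem : ((w, K, i) : ℕ × ℕ × ℕ) ∈ C := by
          simp only [C, Finset.mem_product, Finset.mem_range]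
          exact ⟨hw, hK, hi⟩
        rw [if_pos hmem]
        apply drift_test w K i hi b hb0
        have h1 := Q_le_one (w, K, i)
        have h2 : (103740 + 320 * (w : ℝ)) ≤ b := by
          have : (w : ℝ) ≤ w1 := by exact_mod_cast hw.le
          linarith
        have h3 : Q (w, K, i) * (103740 + 320 * w) ≤ 1 * (103740 + 320 * w) :=
          mul_le_mul_of_nonneg_right h1 (by positivity)
        linarith
      · push Not at hK
        have hT := drift_test w K i hi 0 le_rfl ?_
        · refine hT.trans ?_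
          gcongr
          simp
        · have h1 := Q_le_one (w, K, i)
          have h2 : (103740 + 320 * (w : ℝ)) ≤ b := by
            have : (w : ℝ) ≤ w1 := by exact_mod_cast hw.le
            linarith
          have h3 : Q (w, K, i) * (103740 + 320 * w) ≤ 1 * (103740 + 320 * w) :=
            mul_le_mul_of_nonneg_right h1 (by positivity)
          have h4 : (K : ℝ) ≤ 2 ^ K := by
            have : K < 2 ^ K := Nat.lt_two_pow_self
            exact_mod_cast this.le
          have h5 : (2 * K1 + 2 : ℝ) ≤ K := by exact_mod_cast hK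
          linarith
    · push Not at hw
      have hT := drift_test w K i hi 0 le_rfl ?_
      · refine hT.trans ?_
        gcongr
        simp
      · have := hw1 w hw _ hpl hpu
        rw [hQ] at this
        linarith
  · refine (drift_ramp w K i hi).trans ?_
    exact le_self_add

end Pool.Agent.MPba3ff3
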