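import Mathlib
import Pool.Agent.MPba3ff3.Final

set_option autoImplicit false

namespace Pool.Agent.MPba3ff3

open scoped ENNReal Topology Classical
open Filter

theorem ite_and_mul (A B : Prop) [Decidable A] [Decidable B] [Decidable (A ∧ B)] :
    (if A ∧ B then (1 : ℝ≥0∞) else 0) = (if A then 1 else 0) * (if B then 1 else 0) := by
  by_cases hA : A <;> by_cases hB : B <;> simp [hA, hB]

theorem ite_mul_one' (B : Prop) [Decidable B] (c : ℝ≥0∞) :
    (if B then c else 0) = c * (if B then 1 else 0) := by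
  by_cases hB : B <;> simp [hB]

theorem poi_tsum_shift (w : ℕ) (w' : ℕ) :
    (∑' a : ℕ, ENNReal.ofReal (poi a) * (if w' = w + a then 1 else 0))
      = if w ≤ w' then ENNReal.ofReal (poi (w' - w)) else 0 := by
  split_ifs with h
  · rw [tsum_eq_single (w' - w)]
    · rw [if_pos (by omega), mul_one]
    · intro a ha
      rw [if_neg (by omega), mul_zero]
  · rw [ENNReal.tsum_eq_zero]
    intro a
    rw [if_neg (by omega), mul_zero]

/-- explicit form of the kernel -/
theorem P_explicit (w w' : ℕ) (s s' : ℕ × ℕ) :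
    P (w, s) (w', s') =
      (if w ≤ w' + 1 ∧ sS s = s' then
        ENNReal.ofReal (qf w (enc s)) * ENNReal.ofReal (poi (w' + 1 - w)) else 0) +
      (if w ≤ w' ∧ sF s = s' then
        ENNReal.ofReal (1 - qf w (enc s)) * ENNReal.ofReal (poi (w' - w)) else 0) := by
  unfold P
  simp only [Prod.mk.injEq]
  have e : ∀ a : ℕ, ENNReal.ofReal (poi a) *
      (ENNReal.ofReal (Q (w, s)) * (if w' = w - 1 + a ∧ s' = sS s then 1 else 0)
      + ENNReal.ofReal (1 - Q (w, s)) * (if w' = w + a ∧ s' = sF s then 1 else 0))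
      = (if s' = sS s then ENNReal.ofReal (Q (w, s)) else 0) * (ENNReal.ofReal (poi a) * (if w' = w - 1 + a then 1 else 0))
      + (if s' = sF s then ENNReal.ofReal (1 - Q (w, s)) else 0) * (ENNReal.ofReal (poi a) * (if w' = w + a then 1 else 0)) := by
    intro a
    rw [ite_and_mul, ite_and_mul, ite_mul_one' (s' = sS s) (ENNReal.ofReal (Q (w, s))),
      ite_mul_one' (s' = sF s) (ENNReal.ofReal (1 - Q (w, s)))]
    ring
  simp_rw [e]
  rw [ENNReal.tsum_add, ENNReal.tsum_mul_left, ENNReal.tsum_mul_left, poi_tsum_shift, poi_tsum_shift]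
  have hQ : Q (w, s) = qf w (enc s) := rfl
  rw [hQ]
  congr 1
  · rcases Nat.eq_zero_or_pos w with rfl | hw
    · rw [qf_zero]; simp
    · have h5 : w - 1 ≤ w' ↔ w ≤ w' + 1 := by omega
      have h6 : w' - (w - 1) = w' + 1 - w := by omega
      rw [h6]
      by_cases h1 : s' = sS s
      · by_cases h2 : w ≤ w' + 1
        · rw [if_pos h1, if_pos (h5.mpr h2), if_pos ⟨h2, h1.symm⟩]
        · have hA : ¬ (w - 1 ≤ w') := fun h => h2 (h5.mp h)
          have hB : ¬ (w ≤ w' + 1 ∧ sS s = s') := fun h => h2 h.1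
          rw [if_neg hA, if_neg hB, mul_zero]
      · have hB : ¬ (w ≤ w' + 1 ∧ sS s = s') := fun h => h1 h.2.symm
        rw [if_neg h1, if_neg hB, zero_mul]
  · by_cases h1 : s' = sF s
    · by_cases h2 : w ≤ w'
      · rw [if_pos h1, if_pos h2, if_pos ⟨h2, h1.symm⟩]
      · have hB : ¬ (w ≤ w' ∧ sF s = s') := fun h => h2 h.1
        rw [if_neg h2, if_neg hB, mul_zero]
    · have hB : ¬ (w ≤ w' ∧ sF s = s') := fun h => h1 h.2.symm
      rw [if_neg h1, if_neg hB, zero_mul]

theorem P_explicit_real (w w' : ℕ) (s s' : ℕ × ℕ) :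
    (P (w, s) (w', s')).toReal =
      (if w ≤ w' + 1 ∧ sS s = s' then qf w (enc s) * poi (w' + 1 - w) else 0) +
      (if w ≤ w' ∧ sF s = s' then (1 - qf w (enc s)) * poi (w' - w) else 0) := by
  have h0 := qf_nonneg w (enc s) (enc_pos s).le (enc_le_one s)
  have h1 := qf_le_one w (enc s) (enc_pos s).le (enc_le_one s)
  rw [P_explicit, ENNReal.toReal_add]
  · congr 1
    · split_ifs
      · rw [ENNReal.toReal_mul, ENNReal.toReal_ofReal h0, ENNReal.toReal_ofReal (poi_nonneg _)]
      · rfl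
    · split_ifs
      · rw [ENNReal.toReal_mul, ENNReal.toReal_ofReal (by linarith), ENNReal.toReal_ofReal (poi_nonneg _)]
      · rfl
  · split_ifs
    · exact ENNReal.mul_ne_top ENNReal.ofReal_ne_top ENNReal.ofReal_ne_top
    · simp
  · split_ifs
    · exact ENNReal.mul_ne_top ENNReal.ofReal_ne_top ENNReal.ofReal_ne_top
    · simp

/-- the update rule -/
noncomputable def upd (p : ℝ) (b : Bool) : ℝ :=
  if h : ∃ s, enc s = p then enc (if b then sS h.choose else sF h.choose) else enc (0, 0)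

theorem upd_enc (s : ℕ × ℕ) (b : Bool) : upd (enc s) b = enc (if b then sS s else sF s) := by
  have h : ∃ t, enc t = enc s := ⟨s, rfl⟩
  unfold upd
  rw [dif_pos h]
  have : h.choose = s := enc_injective h.choose_spec
  rw [this]

theorem main :
    ∃ lam : ℝ, 0 < lam ∧
      ∃ f : ℝ → Bool → ℝ,
        (∀ p ∈ Set.Icc (0:ℝ) 1, ∀ b : Bool, f p b ∈ Set.Icc (0:ℝ) 1) ∧
        ∃ π : ℕ → ℝ → ℝ,
          (∀ w p, 0 ≤ π w p) ∧
          (∀ w p, π w p ≠ 0 → p ∈ Set.Icc (0:ℝ) 1) ∧
          Summable (fun x : ℕ × ℝ => π x.1 x.2) ∧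
          (∑' x : ℕ × ℝ, π x.1 x.2) = 1 ∧
          ∀ w' : ℕ, ∀ p' : ℝ,
            π w' p' = ∑' x : ℕ × ℝ, π x.1 x.2 *
              ((if x.1 ≤ w' + 1 ∧ f x.2 true = p' then
                  ((x.1 : ℝ) * x.2 * (1 - x.2) ^ (x.1 - 1)) *
                    (Real.exp (-lam) * lam ^ (w' + 1 - x.1) / ((w' + 1 - x.1).factorial : ℝ))
                else 0) +
               (if x.1 ≤ w' ∧ f x.2 false = p' then
                  (1 - (x.1 : ℝ) * x.2 * (1 - x.2) ^ (x.1 - 1)) *
                    (Real.exp (-lam) * lam ^ (w' - x.1) / ((w' - x.1).factorial : ℝ))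
                else 0)) := by
  obtain ⟨ρ, hρ1, hρ2⟩ := exists_inv
  have hρtop : ∀ x, ρ x ≠ ∞ := fun x =>
    ne_top_of_le_ne_top ENNReal.one_ne_top ((ENNReal.le_tsum x).trans hρ1.le)
  let π : ℕ → ℝ → ℝ := fun w p => if h : ∃ s, enc s = p then (ρ (w, h.choose)).toReal else 0
  have hπenc : ∀ w s, π w (enc s) = (ρ (w, s)).toReal := by
    intro w s
    have h : ∃ t, enc t = enc s := ⟨s, rfl⟩
    simp only [π]
    rw [dif_pos h]
    have : h.choose = s := enc_injective h.choose_spec
    rw [this]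
  have hπout : ∀ w p, (¬ ∃ s, enc s = p) → π w p = 0 := by
    intro w p h
    simp only [π]
    rw [dif_neg h]
  let ι : ℕ × ℕ × ℕ → ℕ × ℝ := fun x => (x.1, enc x.2)
  have hι : Function.Injective ι := by
    rintro ⟨w, s⟩ ⟨w', s'⟩ h
    simp only [ι, Prod.mk.injEq] at h
    have := enc_injective h.2
    rw [h.1, this]
  have hsupp : ∀ g : ℕ × ℝ → ℝ, Function.support (fun x : ℕ × ℝ => π x.1 x.2 * g x) ⊆ Set.range ι := by
    intro g x hx
    rw [Function.mem_support] at hx
    have hne : π x.1 x.2 ≠ 0 := left_ne_zero_of_mul hx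
    by_contra hcon
    apply hne
    apply hπout
    rintro ⟨s, hs⟩
    apply hcon
    exact ⟨(x.1, s), by simp [ι, hs]⟩
  have hsupp1 : Function.support (fun x : ℕ × ℝ => π x.1 x.2) ⊆ Set.range ι := by
    have := hsupp (fun _ => 1)
    simpa using this
  refine ⟨lam, lam_pos, upd, ?_, π, ?_, ?_, ?_, ?_, ?_⟩
  · intro p _ b
    unfold upd
    split_ifs <;> exact ⟨(enc_pos _).le, enc_le_one _⟩
  · intro w p
    simp only [π]
    split_ifs
    · exact ENNReal.toReal_nonneg
    · exact le_rfl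
  · intro w p h
    by_cases hs : ∃ s, enc s = p
    · obtain ⟨s, rfl⟩ := hs
      exact ⟨(enc_pos _).le, enc_le_one _⟩
    · exact absurd (hπout w p hs) h
  · rw [← hι.summable_iff (fun x hx => by
      by_contra hc
      exact hx (hsupp1 hc))]
    have : ((fun x : ℕ × ℝ => π x.1 x.2) ∘ ι) = fun x => (ρ x).toReal := by
      funext x
      simp only [Function.comp, ι]
      exact hπenc x.1 x.2
    rw [this]
    apply ENNReal.summable_toReal
    rw [hρ1]; simp
  · rw [← hι.tsum_eq hsupp1]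
    have : (fun x => (fun x : ℕ × ℝ => π x.1 x.2) (ι x)) = fun x => (ρ x).toReal := by
      funext x
      simp only [ι]
      exact hπenc x.1 x.2
    rw [this, ← ENNReal.tsum_toReal_eq hρtop, hρ1]
    simp
  · intro w' p'
    rw [← hι.tsum_eq (hsupp _)]
    by_cases hp' : ∃ s', enc s' = p'
    · obtain ⟨s', rfl⟩ := hp'
      rw [hπenc, ← hρ2 (w', s'), ENNReal.tsum_toReal_eq]
      · apply tsum_congr
        rintro ⟨w, s⟩
        simp only [ι]
        rw [hπenc, ENNReal.toReal_mul, P_explicit_real, upd_enc, upd_enc]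
        simp only [if_true, Bool.false_eq_true, if_false]
        congr 1
        have e1 : (enc (sS s) = enc s') ↔ sS s = s' := enc_injective.eq_iff
        have e2 : (enc (sF s) = enc s') ↔ sF s = s' := enc_injective.eq_iff
        congr 1
        · exact if_congr (and_congr_right fun _ => e1.symm) rfl rfl
        · exact if_congr (and_congr_right fun _ => e2.symm) rfl rfl
      · intro x
        apply ENNReal.mul_ne_top (hρtop x)
        exact ne_top_of_le_ne_top ENNReal.one_ne_top ((ENNReal.le_tsum _).trans (P_row x).le)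
    · rw [hπout w' p' hp']
      symm
      have hz : ∀ x : ℕ × ℕ × ℕ, ∀ b : Bool, upd (ι x).2 b ≠ p' := by
        intro x b h
        apply hp'
        simp only [ι] at h
        rw [upd_enc] at h
        exact ⟨_, h⟩
      convert tsum_zero with x
      have h1 := hz x true
      have h2 := hz x false
      have hB : ¬ ((ι x).1 ≤ w' + 1 ∧ upd (ι x).2 true = p') := fun h => h1 h.2
      have hC : ¬ ((ι x).1 ≤ w' ∧ upd (ι x).2 false = p') := fun h => h2 h.2
      rw [if_neg hB, if_neg hC]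
      ring

end Pool.Agent.MPba3ff3
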