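import Mathlib
import Pool.Agent.MPba3ff3.Transfer

set_option autoImplicit false

namespace Pool.Agent.MPba3ff3

open scoped ENNReal Topology Classical
open Filter

/-- probability that the chain with kernel `P` started at `x` avoids `z` at the times
`1, ..., n` -/
noncomputable def av {X : Type} (P : X → X → ℝ≥0∞) (z : X) : ℕ → X → ℝ≥0∞
  | 0, _ => 1
  | n + 1, x => ∑' y, if y = z then 0 else P x y * av P z n y

theorem kac_step {X : Type} (P : X → X → ℝ≥0∞) (ρ : X → ℝ≥0∞)
    (hρ : ∀ y, ∑' x, ρ x * P x y = ρ y) (z : X) (n : ℕ) :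
    ∑' x, ρ x * av P z (n + 1) x = ∑' x, (if x = z then 0 else ρ x * av P z n x) := by
  have e : ∀ x, ρ x * av P z (n + 1) x
      = ∑' y, (if y = z then 0 else (ρ x * P x y) * av P z n y) := by
    intro x
    show ρ x * (∑' y, if y = z then 0 else P x y * av P z n y) = _
    rw [← ENNReal.tsum_mul_left]
    refine tsum_congr fun y => ?_
    split_ifs
    · rw [mul_zero]
    · rw [mul_assoc]
  simp_rw [e]
  rw [ENNReal.tsum_comm]
  refine tsum_congr fun y => ?_
  split_ifs
  · exact ENNReal.tsum_eq_zero.mpr fun _ => rfl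
  · rw [ENNReal.tsum_mul_right, hρ]

theorem kac_identity {X : Type} (P : X → X → ℝ≥0∞) (ρ : X → ℝ≥0∞) (hρ1 : ∑' x, ρ x = 1)
    (hρ : ∀ y, ∑' x, ρ x * P x y = ρ y) (z : X) (n : ℕ) :
    (∑ k ∈ Finset.range (n + 1), ρ z * av P z k z)
      + ∑' x, (if x = z then 0 else ρ x * av P z n x) = 1 := by
  induction n with
  | zero =>
    have h := ENNReal.tsum_eq_add_tsum_ite (f := ρ) z
    rw [hρ1] at h
    simp only [zero_add, Finset.range_one, Finset.sum_singleton, av, mul_one]
    exact h.symm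
  | succ n ih =>
    rw [Finset.sum_range_succ, add_assoc]
    have h := ENNReal.tsum_eq_add_tsum_ite (f := fun x => ρ x * av P z (n + 1) x) z
    rw [kac_step P ρ hρ z n] at h
    rw [← h]
    exact ih

theorem kac {X : Type} (P : X → X → ℝ≥0∞) (ρ : X → ℝ≥0∞) (hρ1 : ∑' x, ρ x = 1)
    (hρ : ∀ y, ∑' x, ρ x * P x y = ρ y) (z : X) (hz : ρ z ≠ 0) :
    ∑' n, av P z n z < ∞ := by
  have h : ρ z * ∑' n, av P z n z ≤ 1 := by
    rw [← ENNReal.tsum_mul_left, ENNReal.tsum_eq_iSup_nat]
    refine iSup_le fun n => ?_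
    have h1 := kac_identity P ρ hρ1 hρ z n
    calc ∑ k ∈ Finset.range n, ρ z * av P z k z
        ≤ ∑ k ∈ Finset.range (n + 1), ρ z * av P z k z :=
          Finset.sum_le_sum_of_subset (Finset.range_mono (Nat.le_succ n))
      _ ≤ 1 := by
          rw [← h1]
          exact le_self_add
  rw [lt_top_iff_ne_top]
  intro ht
  rw [ht, ENNReal.mul_top hz] at h
  exact absurd h (by simp)

/-! ### irreducibility -/

theorem poi_pos (a : ℕ) : 0 < poi a := by
  unfold poi
  have := lam_pos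
  positivity

theorem enc_lt_one (s : ℕ × ℕ) : enc s < 1 := by
  refine (enc_upper s).trans_lt ?_
  rw [div_lt_one (by positivity)]
  have : (0 : ℝ) ≤ ((s.2 + 1 : ℕ) : ℝ) := Nat.cast_nonneg _
  linarith

theorem qf_pos (w : ℕ) (p : ℝ) (h0 : 0 < p) (h1 : p < 1) (hw : 1 ≤ w) : 0 < qf w p := by
  unfold qf
  have hw' : (0 : ℝ) < w := by exact_mod_cast hw
  have : 0 < 1 - p := by linarith
  positivity

theorem qf_add_pow (w : ℕ) (p : ℝ) (h0 : 0 ≤ p) (h1 : p ≤ 1) : qf w p + (1 - p) ^ w ≤ 1 := by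
  have h2 : 0 ≤ 1 - p := by linarith
  induction w with
  | zero => simp [qf]
  | succ w ih =>
    have e : qf (w + 1) p + (1 - p) ^ (w + 1)
        = (1 - p) * (qf w p + (1 - p) ^ w) + p * (1 - p) ^ w := by
      unfold qf
      cases w with
      | zero => simp
      | succ v =>
        simp only [Nat.add_sub_cancel]
        push_cast
        ring
    rw [e]
    have h3 : (1 - p) ^ w ≤ 1 := pow_le_one₀ h2 (by linarith)
    have h4 := mul_le_mul_of_nonneg_left ih h2
    have h5 := mul_le_mul_of_nonneg_left h3 h0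
    linarith

theorem qf_lt_one (w : ℕ) (p : ℝ) (h0 : 0 ≤ p) (h1 : p < 1) : qf w p < 1 := by
  have h := qf_add_pow w p h0 h1.le
  have : 0 < (1 - p) ^ w := pow_pos (by linarith) w
  linarith

/-- one step of positive probability -/
def Rel (x y : ℕ × ℕ × ℕ) : Prop := P x y ≠ 0

theorem rel_fail (w a : ℕ) (s : ℕ × ℕ) : Rel (w, s) (w + a, sF s) := by
  unfold Rel
  rw [P_explicit, if_pos (⟨by omega, rfl⟩ : w ≤ w + a ∧ sF s = sF s)]
  have h1 := qf_lt_one w (enc s) (enc_pos s).le (enc_lt_one s)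
  have h2 : ENNReal.ofReal (1 - qf w (enc s)) ≠ 0 := by
    rw [Ne, ENNReal.ofReal_eq_zero, not_le]
    linarith
  have h3 : ENNReal.ofReal (poi (w + a - w)) ≠ 0 := by
    rw [Ne, ENNReal.ofReal_eq_zero, not_le]
    exact poi_pos _
  intro h
  exact (mul_ne_zero h2 h3) (add_eq_zero.mp h).2

theorem rel_succ (w a : ℕ) (s : ℕ × ℕ) (hw : 1 ≤ w) : Rel (w, s) (w - 1 + a, sS s) := by
  unfold Rel
  rw [P_explicit, if_pos (⟨by omega, rfl⟩ : w ≤ w - 1 + a + 1 ∧ sS s = sS s)]
  have h1 := qf_pos w (enc s) (enc_pos s) (enc_lt_one s) hw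
  have h2 : ENNReal.ofReal (qf w (enc s)) ≠ 0 := by
    rw [Ne, ENNReal.ofReal_eq_zero, not_le]
    exact h1
  have h3 : ENNReal.ofReal (poi (w - 1 + a + 1 - w)) ≠ 0 := by
    rw [Ne, ENNReal.ofReal_eq_zero, not_le]
    exact poi_pos _
  intro h
  exact (mul_ne_zero h2 h3) (add_eq_zero.mp h).1

/-- reachability -/
def Lead : ℕ × ℕ × ℕ → ℕ × ℕ × ℕ → Prop := Relation.ReflTransGen Rel

theorem lead_down (w K j : ℕ) : Lead (w, K, 6999 + j) (w, K, 6999) := by
  induction j with
  | zero => exact Relation.ReflTransGen.refl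
  | succ j ih =>
    refine Relation.ReflTransGen.head ?_ ih
    have h := rel_fail w 0 (K, 6999 + (j + 1))
    have e : sF (K, 6999 + (j + 1)) = (K, 6999 + j) := by
      unfold sF
      rw [if_neg (by simp)]
      rfl
    rw [e, Nat.add_zero] at h
    exact h

theorem lead_reset (w K i : ℕ) (hw : 1 ≤ w) : Lead (w, K, i) (w - 1, 0, 6999) := by
  by_cases hi : i < 7000
  · have h := rel_succ w 0 (K, i) hw
    have e : sS (K, i) = (0, 6999) := by
      unfold sS
      rw [if_pos hi]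
    rw [e, Nat.add_zero] at h
    exact Relation.ReflTransGen.single h
  · obtain ⟨j, rfl⟩ : ∃ j, i = 6999 + j := ⟨i - 6999, by omega⟩
    refine (lead_down w K j).tail ?_
    have h := rel_succ w 0 (K, 6999) hw
    have e : sS (K, 6999) = (0, 6999) := by
      unfold sS
      rw [if_pos (by norm_num)]
    rw [e, Nat.add_zero] at h
    exact h

theorem lead_empty (w : ℕ) : Lead (w, 0, 6999) (0, 0, 6999) := by
  induction w with
  | zero => exact Relation.ReflTransGen.refl
  | succ w ih => exact (lead_reset (w + 1) 0 6999 (by omega)).trans ih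

theorem lead_zero (x : ℕ × ℕ × ℕ) : Lead x (0, 0, 6999) := by
  obtain ⟨w, K, i⟩ := x
  rcases Nat.eq_zero_or_pos w with rfl | hw
  · have h := rel_fail 0 1 (K, i)
    have h2 : Lead (0 + 1, sF (K, i)) (0, 0, 6999) := by
      have := lead_reset 1 (sF (K, i)).1 (sF (K, i)).2 le_rfl
      exact this.trans (lead_empty _)
    exact Relation.ReflTransGen.head h h2
  · exact (lead_reset w K i hw).trans (lead_empty _)

theorem lead_all (w : ℕ) : Lead (0, 0, 6999) (w, 0, 6999) := by
  have h1 := rel_fail 0 1 (0, 6999)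
  have e1 : sF (0, 6999) = (0, 6998) := by
    unfold sF
    rw [if_neg (by norm_num)]
    rfl
  rw [e1] at h1
  have h2 := rel_succ 1 w (0, 6998) le_rfl
  have e2 : sS (0, 6998) = (0, 6999) := by
    unfold sS
    rw [if_pos (by norm_num)]
  rw [e2] at h2
  have e3 : 1 - 1 + w = w := by omega
  rw [e3] at h2
  exact Relation.ReflTransGen.head h1 (Relation.ReflTransGen.single h2)

theorem rel_loop : Rel (1, 0, 6999) (1, 0, 6999) := by
  have h := rel_succ 1 1 (0, 6999) le_rfl
  have e : sS (0, 6999) = (0, 6999) := by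
    unfold sS
    rw [if_pos (by norm_num)]
  rw [e] at h
  exact h

/-- expected return times are finite -/
theorem return_finite (z : ℕ × ℕ × ℕ) (hz : Lead (0, 0, 6999) z) : ∑' n, av P z n z < ∞ := by
  obtain ⟨ρ, hρ1, hρ2⟩ := exists_inv
  refine kac P ρ hρ1 hρ2 z ?_
  have hstep : ∀ x y, ρ x ≠ 0 → Rel x y → ρ y ≠ 0 := by
    intro x y hx hxy
    rw [← hρ2 y]
    intro h
    rw [ENNReal.tsum_eq_zero] at h
    exact (mul_ne_zero hx hxy) (h x)
  have hlead : ∀ x y, ρ x ≠ 0 → Lead x y → ρ y ≠ 0 := by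
    intro x y hx hxy
    induction hxy with
    | refl => exact hx
    | tail _ h ih => exact hstep _ _ ih h
  obtain ⟨x, hx⟩ : ∃ x, ρ x ≠ 0 := by
    by_contra hcon
    push Not at hcon
    rw [ENNReal.tsum_eq_zero.mpr hcon] at hρ1
    exact zero_ne_one hρ1
  exact hlead _ _ (hlead _ _ hx (lead_zero x)) hz

end Pool.Agent.MPba3ff3
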